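import Pool.Agent.W408.SR.Ring2

set_option autoImplicit false
set_option maxSynthPendingDepth 3

/-!
# The ring of germs as an image of a ring of families of operators on spaces of finite dimension
-/

namespace Pool.Agent.W408.SR

open scoped InnerProductSpace

noncomputable section

/-- Moore-Penrose inverses -/
def IsMP {R : Type*} [Ring R] [StarRing R] (x x' : R) : Prop :=
  x * x' * x = x ∧ x' * x * x' = x' ∧ star (x * x') = x * x' ∧ star (x' * x) = x' * x

theorem exists_proj' {R : Type*} [Ring R] [StarRing R] (hp : ∀ t : R, star t * t = 0 → t = 0)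
    {x w : R} (hw : star x * x * w * (star x * x) = star x * x) :
    x * (w * star x) * x = x ∧ star (x * (w * star x)) = x * (w * star x) := by
  have h1 : x * (w * star x) * x = x := by
    have h2 : star x * (x * (w * star x) * x - x) = 0 := by
      rw [mul_sub, sub_eq_zero]
      calc star x * (x * (w * star x) * x) = star x * x * w * (star x * x) := by
            simp only [mul_assoc]
        _ = star x * x := hw
    have h3 : x * (w * star x) * x - x = x * (w * star x * x - 1) := by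
      rw [mul_sub, mul_one]; simp only [mul_assoc]
    have h4 : star (x * (w * star x) * x - x) * (x * (w * star x) * x - x) = 0 := by
      conv_lhs => rw [h3, star_mul, ← h3]
      rw [mul_assoc, h2, mul_zero]
    exact sub_eq_zero.1 (hp _ h4)
  refine ⟨h1, ?_⟩
  -- the same for the adjoint of `w`
  have hw' : star x * x * star w * (star x * x) = star x * x := by
    have := congrArg star hw
    simp only [star_mul, star_star] at this
    simpa only [mul_assoc] using this
  have h1' : x * (star w * star x) * x = x := by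
    have h2 : star x * (x * (star w * star x) * x - x) = 0 := by
      rw [mul_sub, sub_eq_zero]
      calc star x * (x * (star w * star x) * x) = star x * x * star w * (star x * x) := by
            simp only [mul_assoc]
        _ = star x * x := hw'
    have h3 : x * (star w * star x) * x - x = x * (star w * star x * x - 1) := by
      rw [mul_sub, mul_one]; simp only [mul_assoc]
    have h4 : star (x * (star w * star x) * x - x) * (x * (star w * star x) * x - x) = 0 := by
      conv_lhs => rw [h3, star_mul, ← h3]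
      rw [mul_assoc, h2, mul_zero]
    exact sub_eq_zero.1 (hp _ h4)
  have h5 : star x * (x * (w * star x)) = star x := by
    have := congrArg star h1'
    simp only [star_mul, star_star] at this
    simpa only [mul_assoc] using this
  have h6 : star (x * (w * star x)) = x * (star w * star x) := by
    simp only [star_mul, star_star, mul_assoc]
  have h7 : star (x * (w * star x)) * (x * (w * star x)) = star (x * (w * star x)) := by
    rw [h6]
    calc x * (star w * star x) * (x * (w * star x)) = x * star w * (star x * (x * (w * star x))) := by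
          simp only [mul_assoc]
      _ = x * (star w * star x) := by rw [h5, mul_assoc]
  have h8 := congrArg star h7
  rw [star_mul, star_star, h7] at h8
  exact h8

theorem exists_MP {R : Type*} [Ring R] [StarRing R] (hp : ∀ t : R, star t * t = 0 → t = 0)
    {x : R} (h1 : ∃ w, star x * x * w * (star x * x) = star x * x)
    (h2 : ∃ w, x * star x * w * (x * star x) = x * star x) : ∃ x', IsMP x x' := by
  obtain ⟨w, hw⟩ := h1
  obtain ⟨w', hw'⟩ := h2
  obtain ⟨e1, e2⟩ := exists_proj' hp hw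
  have hw2 : star (star x) * star x * star w' * (star (star x) * star x) =
      star (star x) * star x := by
    have := congrArg star hw'
    simp only [star_mul, star_star] at this
    simpa only [star_star, mul_assoc] using this
  obtain ⟨f1, f2⟩ := exists_proj' hp hw2
  rw [star_star] at f1 f2
  -- translate
  have g1 : x * (star x * w') * x = x := by
    have := congrArg star f1
    simp only [star_mul, star_star] at this
    simpa only [mul_assoc] using this
  have g2 : star ((star x * w') * x) = (star x * w') * x := by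
    have h3 : star (star x * (star w' * x)) = (star x * w') * x := by
      simp only [star_mul, star_star, mul_assoc]
    rw [h3] at f2
    rw [f2, h3, f2]
  refine ⟨(star x * w') * x * (w * star x), ?_, ?_, ?_, ?_⟩
  · calc x * ((star x * w') * x * (w * star x)) * x = (x * (star x * w') * x) * (w * star x) * x := by
          simp only [mul_assoc]
      _ = x := by rw [g1, e1]
  · calc (star x * w') * x * (w * star x) * x * ((star x * w') * x * (w * star x))
        = (star x * w') * (x * (w * star x) * x) * (star x * w') * x * (w * star x) := by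
          simp only [mul_assoc]
      _ = (star x * w') * (x * (star x * w') * x) * (w * star x) := by
          rw [e1]; simp only [mul_assoc]
      _ = (star x * w') * x * (w * star x) := by rw [g1]
  · have : x * ((star x * w') * x * (w * star x)) = x * (w * star x) := by
      calc x * ((star x * w') * x * (w * star x)) = (x * (star x * w') * x) * (w * star x) := by
            simp only [mul_assoc]
        _ = _ := by rw [g1]
    rw [this, e2]
  · have : (star x * w') * x * (w * star x) * x = (star x * w') * x := by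
      calc (star x * w') * x * (w * star x) * x = (star x * w') * (x * (w * star x) * x) := by
            simp only [mul_assoc]
        _ = _ := by rw [e1]
    rw [this, g2]

theorem IsMP.star {R : Type*} [Ring R] [StarRing R] {x x' : R} (h : IsMP x x') :
    IsMP (star x) (star x') := by
  obtain ⟨h1, h2, h3, h4⟩ := h
  refine ⟨?_, ?_, ?_, ?_⟩
  · rw [← star_mul, ← star_mul, ← mul_assoc, h1]
  · rw [← star_mul, ← star_mul, ← mul_assoc, h2]
  · rw [← star_mul, star_star, h4]
  · rw [← star_mul, star_star, h3]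

theorem Rats.exists_MP {φ : WW → BB} (h : Rats φ) :
    ∃ ψ : WW → BB, Rats ψ ∧ ∀ᶠ w in (UU : Filter WW), IsMP (φ w) (ψ w) := by
  classical
  have hr : ∀ θ : WW → BB, Rats θ → ∀ᶠ w in (UU : Filter WW), ∃ b, θ w * b * θ w = θ w := by
    intro θ hθ
    obtain ⟨ψ, hψ⟩ := hθ.1.exists_inv
    exact hψ.mono fun w hw => ⟨ψ w, hw.1⟩
  have h1 : ∀ᶠ w in (UU : Filter WW), ∃ b, IsMP (φ w) b := by
    filter_upwards [hr _ (h.star.mul h), hr _ (h.mul h.star)] with w k1 k2
    exact SR.exists_MP (fun t => star_mul_self_eq_zero') k1 k2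
  let ψ : WW → BB := fun w => if hw : ∃ b, IsMP (φ w) b then hw.choose else 0
  have h2 : ∀ᶠ w in (UU : Filter WW), IsMP (φ w) (ψ w) := by
    filter_upwards [h1] with w hw
    simp only [ψ]
    rw [dif_pos hw]
    exact hw.choose_spec
  refine ⟨ψ, ⟨h.1.inv ?_, h.2.inv ?_⟩, h2⟩
  · exact h2.mono fun w hw => ⟨hw.1, hw.2.1⟩
  · exact h2.mono fun w hw => ⟨hw.star.1, hw.star.2.1⟩

/-- subspaces of finite dimension -/
abbrev FD := {U : Submodule ℂ HH // FiniteDimensional ℂ U}

instance (U : FD) : FiniteDimensional ℂ U.1 := U.2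

instance (U : FD) : CompleteSpace U.1 := FiniteDimensional.complete ℂ U.1

instance : Nonempty FD := ⟨⟨⊥, inferInstance⟩⟩

instance : IsDirectedOrder FD :=
  ⟨fun U V => ⟨⟨U.1 ⊔ V.1, inferInstance⟩, (le_sup_left : U.1 ≤ U.1 ⊔ V.1),
    (le_sup_right : V.1 ≤ U.1 ⊔ V.1)⟩⟩

/-- operators on a subspace -/
abbrev EN (U : FD) := U.1 →L[ℂ] U.1

/-- convergence of a family of operators on the subspaces -/
def Lim (x : (U : FD) → EN U) (T : BB) : Prop :=
  ∀ v : HH, ∀ᶠ U in (Filter.atTop : Filter FD), ∃ h : v ∈ U.1, ((x U ⟨v, h⟩ : U.1) : HH) = T v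

theorem mem_ev (v : HH) : ∀ᶠ U in (Filter.atTop : Filter FD), v ∈ U.1 := by
  let V : FD := ⟨ℂ ∙ v, inferInstance⟩
  filter_upwards [Filter.eventually_ge_atTop V] with U hU
  exact hU (Submodule.mem_span_singleton_self v)

theorem Lim.add {x y : (U : FD) → EN U} {T T' : BB} (h : Lim x T) (h' : Lim y T') :
    Lim (fun U => x U + y U) (T + T') := by
  intro v
  filter_upwards [h v, h' v] with U ⟨hv, k⟩ ⟨_, k'⟩
  refine ⟨hv, ?_⟩
  rw [add_apply, Submodule.coe_add, k, k', add_apply]

theorem Lim.neg {x : (U : FD) → EN U} {T : BB} (h : Lim x T) :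
    Lim (fun U => - x U) (-T) := by
  intro v
  filter_upwards [h v] with U ⟨hv, k⟩
  refine ⟨hv, ?_⟩
  rw [neg_apply, Submodule.coe_neg, k, neg_apply]

theorem Lim.zero : Lim (fun _ => 0) 0 := by
  intro v
  filter_upwards [mem_ev v] with U hv
  exact ⟨hv, rfl⟩

theorem Lim.one : Lim (fun _ => 1) 1 := by
  intro v
  filter_upwards [mem_ev v] with U hv
  exact ⟨hv, rfl⟩

theorem Lim.mul {x y : (U : FD) → EN U} {T T' : BB} (h : Lim x T) (h' : Lim y T') :
    Lim (fun U => x U * y U) (T * T') := by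
  intro v
  filter_upwards [h (T' v), h' v] with U ⟨hv, k⟩ ⟨hv', k'⟩
  refine ⟨hv', ?_⟩
  have h1 : y U ⟨v, hv'⟩ = ⟨T' v, hv⟩ := Subtype.ext k'
  change ((x U (y U ⟨v, hv'⟩) : U.1) : HH) = T (T' v)
  rw [h1, k]

theorem Lim.unique {x : (U : FD) → EN U} {T T' : BB} (h : Lim x T) (h' : Lim x T') : T = T' := by
  ext1 v
  obtain ⟨U, ⟨hv, k⟩, ⟨_, k'⟩⟩ := ((h v).and (h' v)).exists
  rw [← k, ← k']

/-- the compression -/
def cmp (T : BB) (U : FD) : EN U :=
  (U.1.orthogonalProjectionOnto.comp T).comp U.1.subtypeL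

theorem Lim.cmp (T : BB) : Lim (cmp T) T := by
  intro v
  filter_upwards [mem_ev v, mem_ev (T v)] with U hv hv'
  refine ⟨hv, ?_⟩
  exact congrArg (fun z : U.1 => (z : HH)) (Submodule.orthogonalProjectionOnto_mem_subspace_eq_self ⟨T v, hv'⟩)

theorem cmp_star (T : BB) (U : FD) : star (cmp T U) = cmp (star T) U := by
  symm
  refine (ContinuousLinearMap.eq_adjoint_iff _ _).2 fun x y => ?_
  have h1 : ⟪cmp (star T) U x, y⟫_ℂ = ⟪(star T) (x : HH), (y : HH)⟫_ℂ :=
    Submodule.inner_orthogonalProjectionOnto_eq_of_mem_right y _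
  have h2 : ⟪x, cmp T U y⟫_ℂ = ⟪(x : HH), T (y : HH)⟫_ℂ :=
    Submodule.inner_orthogonalProjectionOnto_eq_of_mem_left x _
  rw [h1, h2]
  exact ContinuousLinearMap.adjoint_inner_left T (y : HH) (x : HH)

/-- The Moore-Penrose inverses converge. -/
theorem Lim.mpinv {x y : (U : FD) → EN U} {T T' : BB} (h : Lim x T)
    (hs : Lim (fun U => star (x U)) (star T)) (hT : IsMP T T') (hx : ∀ U, IsMP (x U) (y U)) :
    Lim y T' := by
  intro v
  obtain ⟨k1, k2, k3, k4⟩ := hT
  let c : HH := (star T') (T' v)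
  have hc : (star T) c = T' v := by
    have h1 : star T * star T' * T' = T' := by
      rw [← star_mul, k4, k2]
    exact congrArg (fun A : BB => A v) h1
  have hb : (star T) (v - T (T' v)) = 0 := by
    have h1 : star T * (1 - T * T') = 0 := by
      rw [mul_sub, mul_one, ← k3, ← star_mul, k1, sub_self]
    exact congrArg (fun A : BB => A v) h1
  filter_upwards [mem_ev v, h (T' v), hs c, hs (v - T (T' v)), mem_ev (T (T' v))] with U hv
    ⟨h1, e1⟩ ⟨h2, e2⟩ ⟨h3, e3⟩ h4
  refine ⟨hv, ?_⟩
  obtain ⟨m1, m2, m3, m4⟩ := hx U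
  let a' : U.1 := ⟨T' v, h1⟩
  let c' : U.1 := ⟨c, h2⟩
  let b' : U.1 := ⟨v - T (T' v), h3⟩
  have g1 : star (x U) c' = a' := Subtype.ext (by rw [e2, hc])
  have g2 : star (x U) b' = 0 := Subtype.ext (by rw [e3, hb]; rfl)
  have g3 : (⟨v, hv⟩ : U.1) = x U a' + b' := by
    apply Subtype.ext
    rw [Submodule.coe_add, e1]
    change v = T (T' v) + (v - T (T' v))
    abel
  have g4 : y U (x U a') = a' := by
    have h5 : y U * x U * star (x U) = star (x U) := by
      conv_lhs => rw [← m4, ← star_mul, ← mul_assoc, m1]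
    rw [← g1]
    exact congrArg (fun A : EN U => A c') h5
  have g5 : y U b' = 0 := by
    have h5 : y U * star (y U) * star (x U) = y U := by
      rw [mul_assoc, ← star_mul, m3, ← mul_assoc, m2]
    have h6 : y U b' = (y U * star (y U) * star (x U)) b' := by rw [h5]
    rw [h6]
    change (y U) ((star (y U)) ((star (x U)) b')) = 0
    rw [g2, map_zero, map_zero]
  rw [g3, map_add, g4, g5, add_zero]

/-- regularity in the case of finite dimension -/
theorem EN_regular (U : FD) (a : EN U) : ∃ b : EN U, a * b * a = a := by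
  obtain ⟨V, hV⟩ := end_unit (a : U.1 →ₗ[ℂ] U.1)
  refine ⟨LinearMap.toContinuousLinearMap (V : U.1 →ₗ[ℂ] U.1), ?_⟩
  ext1 x
  exact hV x

theorem EN_proper (U : FD) (a : EN U) (h : star a * a = 0) : a = 0 :=
  (CStarRing.star_mul_self_eq_zero_iff a).1 h

theorem EN_MP (U : FD) (a : EN U) : ∃ b : EN U, IsMP a b :=
  SR.exists_MP (EN_proper U) (EN_regular U _) (EN_regular U _)

theorem EN_artinian (U : FD) : IsArtinianRing (EN U) := by
  have : FiniteDimensional ℂ (EN U) :=
    Module.Finite.equiv (LinearMap.toContinuousLinearMap : (U.1 →ₗ[ℂ] U.1) ≃ₗ[ℂ] _)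
  exact IsArtinianRing.of_finite ℂ (EN U)

/-- the index set -/
abbrev IX := WW × FD

/-- convergence to a family -/
def Cv (x : (i : IX) → EN i.2) (φ : WW → BB) : Prop :=
  Rats φ ∧ ∀ᶠ w in (UU : Filter WW), Lim (fun U => x (w, U)) (φ w) ∧
    Lim (fun U => star (x (w, U))) (star (φ w))

theorem Cv.unique {x : (i : IX) → EN i.2} {φ ψ : WW → BB} (h : Cv x φ) (h' : Cv x ψ) :
    mk φ h.1 = mk ψ h'.1 := by
  rw [mk_eq]
  filter_upwards [h.2, h'.2] with w k k'
  exact k.1.unique k'.1

theorem Cv.mul {x y : (i : IX) → EN i.2} {φ ψ : WW → BB} (h : Cv x φ) (h' : Cv y ψ) :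
    Cv (x * y) (φ * ψ) := by
  refine ⟨h.1.mul h'.1, ?_⟩
  filter_upwards [h.2, h'.2] with w k k'
  refine ⟨k.1.mul k'.1, ?_⟩
  have := k'.2.mul k.2
  simpa only [Pi.mul_apply, star_mul] using this

theorem Cv.add {x y : (i : IX) → EN i.2} {φ ψ : WW → BB} (h : Cv x φ) (h' : Cv y ψ) :
    Cv (x + y) (φ + ψ) := by
  refine ⟨h.1.add h'.1, ?_⟩
  filter_upwards [h.2, h'.2] with w k k'
  refine ⟨k.1.add k'.1, ?_⟩
  have := k.2.add k'.2
  simpa only [Pi.add_apply, star_add] using this

theorem Cv.neg {x : (i : IX) → EN i.2} {φ : WW → BB} (h : Cv x φ) : Cv (-x) (-φ) := by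
  refine ⟨h.1.neg, ?_⟩
  filter_upwards [h.2] with w k
  refine ⟨k.1.neg, ?_⟩
  have := k.2.neg
  simpa only [Pi.neg_apply, star_neg] using this

theorem Cv.star {x : (i : IX) → EN i.2} {φ : WW → BB} (h : Cv x φ) :
    Cv (fun i => star (x i)) (fun w => star (φ w)) := by
  refine ⟨h.1.star, ?_⟩
  filter_upwards [h.2] with w k
  refine ⟨k.2, ?_⟩
  simpa only [star_star] using k.1

theorem Cv.zero : Cv 0 0 := by
  refine ⟨Rats.zero, Filter.Eventually.of_forall fun w => ⟨Lim.zero, ?_⟩⟩
  have := Lim.zero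
  simpa only [Pi.zero_apply, star_zero] using this

theorem Cv.one : Cv 1 1 := by
  refine ⟨Rats.one, Filter.Eventually.of_forall fun w => ⟨Lim.one, ?_⟩⟩
  have := Lim.one
  simpa only [Pi.one_apply, star_one] using this

theorem Cv.neg' {x : (i : IX) → EN i.2} (h : ∃ φ, Cv x φ) : ∃ φ, Cv (-x) φ := by
  obtain ⟨φ, h⟩ := h
  exact ⟨-φ, h.neg⟩

theorem Cv.mul' {x y : (i : IX) → EN i.2} (h : ∃ φ, Cv x φ) (h' : ∃ φ, Cv y φ) :
    ∃ φ, Cv (x * y) φ := by
  obtain ⟨φ, h⟩ := h
  obtain ⟨ψ, h'⟩ := h'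
  exact ⟨φ * ψ, h.mul h'⟩

theorem Cv.add' {x y : (i : IX) → EN i.2} (h : ∃ φ, Cv x φ) (h' : ∃ φ, Cv y φ) :
    ∃ φ, Cv (x + y) φ := by
  obtain ⟨φ, h⟩ := h
  obtain ⟨ψ, h'⟩ := h'
  exact ⟨φ + ψ, h.add h'⟩

/-- the ring of convergent families -/
def TT : Subring ((i : IX) → EN i.2) where
  carrier := {x | ∃ φ, Cv x φ}
  mul_mem' := Cv.mul'
  one_mem' := ⟨1, Cv.one⟩
  add_mem' := Cv.add'
  zero_mem' := ⟨0, Cv.zero⟩
  neg_mem' := Cv.neg'

open Classical in
/-- the limit -/
def lm (x : (i : IX) → EN i.2) : RR :=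
  if h : ∃ φ, Cv x φ then mk h.choose h.choose_spec.1 else 0

theorem lm_eq {x : (i : IX) → EN i.2} {φ : WW → BB} (h : Cv x φ) : lm x = mk φ h.1 := by
  have h0 : ∃ φ, Cv x φ := ⟨φ, h⟩
  rw [lm, dif_pos h0]
  exact h0.choose_spec.unique h

theorem TT_regular (x : (i : IX) → EN i.2) (hx : x ∈ TT) : ∃ y ∈ TT, x * y * x = x := by
  obtain ⟨φ, h⟩ := hx
  obtain ⟨ψ, hψ, hm⟩ := h.1.exists_MP
  choose y hy using fun i : IX => EN_MP i.2 (x i)
  refine ⟨y, ⟨ψ, hψ, ?_⟩, ?_⟩
  · filter_upwards [h.2, hm] with w k hw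
    refine ⟨k.1.mpinv k.2 hw (fun U => hy (w, U)), ?_⟩
    exact k.2.mpinv (by simpa only [star_star] using k.1) hw.star (fun U => (hy (w, U)).star)
  · funext i
    exact (hy i).1

theorem TT_surj (r : RR) : ∃ x ∈ TT, lm x = r := by
  obtain ⟨φ, h, rfl⟩ := exists_mk r
  have hc : Cv (fun i : IX => cmp (φ i.1) i.2) φ := by
    refine ⟨h, Filter.Eventually.of_forall fun w => ⟨?_, ?_⟩⟩
    · exact Lim.cmp (φ w)
    · have h1 : (fun U : FD => star (cmp (φ w) U)) = fun U => cmp (star (φ w)) U := by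
        funext U
        exact cmp_star _ _
      have h2 := Lim.cmp (star (φ w))
      change Lim (fun U : FD => star (cmp (φ w) U)) (star (φ w))
      rw [h1]
      exact h2
  exact ⟨_, ⟨φ, hc⟩, lm_eq hc⟩

theorem RR_var : ∃ (I : Type) (S : I → Type) (_ : ∀ i, Ring (S i)) (_ : ∀ i, StarRing (S i)),
    (∀ i, IsArtinianRing (S i)) ∧
    (∀ i, ∀ x : S i, ∃ y : S i, x * y * x = x) ∧
    (∀ i, ∀ x : S i, star x * x = 0 → x = 0) ∧
    ∃ (T : Subring ((i : I) → S i)) (f : ((i : I) → S i) → RR),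
      (∀ x ∈ T, star x ∈ T) ∧
      (∀ x ∈ T, ∃ y ∈ T, x * y * x = x) ∧
      f 1 = 1 ∧
      (∀ x ∈ T, ∀ y ∈ T, f (x + y) = f x + f y) ∧
      (∀ x ∈ T, ∀ y ∈ T, f (x * y) = f x * f y) ∧
      (∀ x ∈ T, f (star x) = star (f x)) ∧
      (∀ r : RR, ∃ x ∈ T, f x = r) := by
  refine ⟨IX, fun i => EN i.2, fun i => inferInstance, fun i => inferInstance,
    fun i => EN_artinian i.2, fun i => EN_regular i.2, fun i => EN_proper i.2, TT, lm,
    ?_, TT_regular, lm_eq Cv.one, ?_, ?_, ?_, TT_surj⟩
  · rintro x ⟨φ, hφ⟩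
    exact ⟨_, hφ.star⟩
  · rintro x ⟨φ, hφ⟩ y ⟨ψ, hψ⟩
    rw [lm_eq hφ, lm_eq hψ]
    exact lm_eq (hφ.add hψ)
  · rintro x ⟨φ, hφ⟩ y ⟨ψ, hψ⟩
    rw [lm_eq hφ, lm_eq hψ]
    exact lm_eq (hφ.mul hψ)
  · rintro x ⟨φ, hφ⟩
    rw [lm_eq hφ]
    exact lm_eq hφ.star

end

end Pool.Agent.W408.SR
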