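import Pool.Agent.W408.SR.Ring

set_option autoImplicit false

/-!
# The minimal ideal of the ring of germs
-/

namespace Pool.Agent.W408.SR

open scoped InnerProductSpace

noncomputable section

/-- an operator of rank one -/
def r1 (x y : HH) : BB := (innerSL ℂ x).smulRight y

theorem r1_apply (x y z : HH) : r1 x y z = ⟪x, z⟫_ℂ • y := by
  rw [r1, ContinuousLinearMap.smulRight_apply, innerSL_apply_apply]

theorem FR_r1 (x y : HH) : FR (r1 x y) := by
  refine FR.of_le (K := ℂ ∙ y) (fun z => ?_)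
  rw [r1_apply]
  exact Submodule.smul_mem _ _ (Submodule.mem_span_singleton_self _)

/-- the projection of rank one -/
def P₀ : BB := r1 (ee 0) (ee 0)

theorem P₀_ne : P₀ ≠ 0 := by
  intro h
  have h1 : ⟪ee 0, P₀ (ee 0)⟫_ℂ = 1 := by
    rw [P₀, r1_apply, inner_smul_right, inner_ee]
    simp
  rw [h] at h1
  simp at h1

theorem exists_r1 {T : BB} (h : T ≠ 0) : ∃ α β : BB, FR α ∧ FR β ∧ α * T * β = P₀ := by
  obtain ⟨x, hx⟩ : ∃ x, T x ≠ 0 := by
    by_contra hc
    push Not at hc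
    exact h (by ext1 x; exact hc x)
  have hne : ⟪T x, T x⟫_ℂ ≠ 0 := inner_self_ne_zero.2 hx
  refine ⟨r1 (T x) ((⟪T x, T x⟫_ℂ)⁻¹ • ee 0), r1 (ee 0) x, FR_r1 _ _, FR_r1 _ _, ?_⟩
  ext1 z
  rw [mul_ap, mul_ap, r1_apply (ee 0) x z, map_smul, map_smul, r1_apply, P₀, r1_apply,
    smul_smul ⟪T x, T x⟫_ℂ, mul_inv_cancel₀ hne, one_smul]

/-- the germ of the projection of rank one -/
def pR : RR := mk (fun _ => P₀) (Rats.of_FR (Filter.Eventually.of_forall fun _ => FR_r1 _ _))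

theorem pR_ne : pR ≠ 0 := by
  intro h
  rw [pR, mk_zero, mk_eq] at h
  obtain ⟨w, hw⟩ := h.exists
  exact P₀_ne hw

theorem pR_mem (J : TwoSidedIdeal RR) (x : RR) (hx : x ∈ J) (h0 : x ≠ 0) : pR ∈ J := by
  classical
  obtain ⟨φ, hφ, rfl⟩ := exists_mk x
  have h1 : ∀ᶠ w in (UU : Filter WW), φ w ≠ 0 := by
    refine Ultrafilter.eventually_not.2 fun h2 => ?_
    apply h0
    rw [mk_zero, mk_eq]
    exact h2
  let α : WW → BB := fun w => if h : φ w ≠ 0 then (exists_r1 h).choose else 0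
  let β : WW → BB := fun w => if h : φ w ≠ 0 then (exists_r1 h).choose_spec.choose else 0
  have h2 : ∀ᶠ w in (UU : Filter WW), FR (α w) ∧ FR (β w) ∧ α w * φ w * β w = P₀ := by
    filter_upwards [h1] with w hw
    simp only [α, β]
    rw [dif_pos hw, dif_pos hw]
    exact (exists_r1 hw).choose_spec.choose_spec
  have hα : Rats α := Rats.of_FR (h2.mono fun w hw => hw.1)
  have hβ : Rats β := Rats.of_FR (h2.mono fun w hw => hw.2.1)
  have h3 : pR = mk α hα * mk φ hφ * mk β hβ := by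
    rw [mk_mul, mk_mul, pR, mk_eq]
    filter_upwards [h2] with w hw
    exact hw.2.2.symm
  rw [h3]
  exact J.mul_mem_right _ _ (J.mul_mem_left _ _ hx)

/-- the ideal of the germs of families of operators of finite rank -/
def FI : TwoSidedIdeal RR :=
  TwoSidedIdeal.mk' {g | ∃ φ h, g = mk φ h ∧ ∀ᶠ w in (UU : Filter WW), FR (φ w)}
    ⟨0, Rats.zero, rfl, Filter.Eventually.of_forall fun _ => FR.zero⟩
    (by
      rintro _ _ ⟨φ, h, rfl, h1⟩ ⟨ψ, h', rfl, h1'⟩
      exact ⟨φ + ψ, h.add h', rfl, by filter_upwards [h1, h1'] with w hw hw'; exact hw.add hw'⟩)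
    (by
      rintro _ ⟨φ, h, rfl, h1⟩
      exact ⟨-φ, h.neg, rfl, by filter_upwards [h1] with w hw; exact hw.neg⟩)
    (by
      rintro x _ ⟨φ, h, rfl, h1⟩
      obtain ⟨ψ, h', rfl⟩ := exists_mk x
      exact ⟨ψ * φ, h'.mul h, rfl, by filter_upwards [h1] with w hw; exact hw.mul_left _⟩)
    (by
      rintro _ x ⟨φ, h, rfl, h1⟩
      obtain ⟨ψ, h', rfl⟩ := exists_mk x
      exact ⟨φ * ψ, h.mul h', rfl, by filter_upwards [h1] with w hw; exact hw.mul_right _⟩)

theorem mem_FI {φ : WW → BB} {h : Rats φ} (hm : mk φ h ∈ FI) :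
    ∀ᶠ w in (UU : Filter WW), FR (φ w) := by
  rw [FI, TwoSidedIdeal.mem_mk'] at hm
  obtain ⟨ψ, h', he, h1⟩ := hm
  rw [mk_eq] at he
  filter_upwards [he, h1] with w hw hw'
  rw [hw]
  exact hw'

/-- the ring of endomorphisms of a space of finite dimension is unit-regular -/
theorem end_unit {K : Type*} [AddCommGroup K] [Module ℂ K] [FiniteDimensional ℂ K]
    (f : K →ₗ[ℂ] K) : ∃ U : K ≃ₗ[ℂ] K, ∀ x, f (U (f x)) = f x := by
  obtain ⟨C, hC⟩ := Submodule.exists_isCompl (LinearMap.ker f)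
  obtain ⟨D, hD⟩ := Submodule.exists_isCompl (LinearMap.range f)
  let e₁ : C ≃ₗ[ℂ] LinearMap.range f := f.kerComplementEquivRange hC.symm
  have hd : Module.finrank ℂ D = Module.finrank ℂ (LinearMap.ker f) := by
    have h1 := f.finrank_range_add_finrank_ker
    have h2 := Submodule.finrank_add_eq_of_isCompl hD
    omega
  let e₂ : D ≃ₗ[ℂ] LinearMap.ker f := LinearEquiv.ofFinrankEq _ _ hd
  let U : K ≃ₗ[ℂ] K := (Submodule.prodEquivOfIsCompl _ _ hD).symm ≪≫ₗ
    ((e₁.symm.prodCongr e₂) ≪≫ₗ (Submodule.prodEquivOfIsCompl _ _ hC.symm))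
  refine ⟨U, fun x => ?_⟩
  let z : LinearMap.range f := ⟨f x, x, rfl⟩
  have h1 : (Submodule.prodEquivOfIsCompl _ _ hD).symm (f x) = (z, 0) :=
    Submodule.prodEquivOfIsCompl_symm_apply_left _ _ hD z
  have h2 : U (f x) = (e₁.symm z : K) := by
    simp only [U, LinearEquiv.trans_apply, h1]
    simp
  rw [h2]
  have h3 : e₁ (e₁.symm z) = z := e₁.apply_symm_apply z
  exact congrArg (fun t : LinearMap.range f => (t : K)) h3

theorem corner {E a : BB} (hE : FR E) (hEE : E * E = E) (ha : E * a * E = a) :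
    ∃ u v : BB, E * u * E = u ∧ E * v * E = v ∧ u * v = E ∧ v * u = E ∧ a = a * u * a := by
  unfold FR at hE
  let K := LinearMap.range (E : HH →ₗ[ℂ] HH)
  have hK : ∀ k : K, E (k : HH) = k := by
    rintro ⟨_, x, rfl⟩
    exact congrArg (fun T : BB => T x) hEE
  let E' : HH →L[ℂ] K := E.codRestrict K (fun x => ⟨x, rfl⟩)
  have hE' : ∀ x, ((E' x : K) : HH) = E x := fun x => rfl
  have hE'K : ∀ k : K, E' (k : HH) = k := fun k => Subtype.ext (hK k)
  have hE'E : ∀ x, E' (E x) = E' x := fun x => hE'K (E' x)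
  let f : K →ₗ[ℂ] K := ((E'.comp a).comp K.subtypeL : K →L[ℂ] K)
  have hf : ∀ x, a x = ((f (E' x) : K) : HH) := by
    intro x
    have h1 : a x = E (a (E x)) := congrArg (fun T : BB => T x) ha.symm
    rw [h1]
    rfl
  obtain ⟨U, hU⟩ := end_unit f
  let u : BB := (K.subtypeL.comp (LinearMap.toContinuousLinearMap (U : K →ₗ[ℂ] K))).comp E'
  let v : BB := (K.subtypeL.comp (LinearMap.toContinuousLinearMap (U.symm : K →ₗ[ℂ] K))).comp E'
  have hu : ∀ x, u x = ((U (E' x) : K) : HH) := fun x => rfl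
  have hv : ∀ x, v x = ((U.symm (E' x) : K) : HH) := fun x => rfl
  refine ⟨u, v, ?_, ?_, ?_, ?_, ?_⟩
  · ext1 x
    rw [mul_ap, mul_ap, hu, hu, hK, hE'E]
  · ext1 x
    rw [mul_ap, mul_ap, hv, hv, hK, hE'E]
  · ext1 x
    rw [mul_ap, hu, hv, hE'K, LinearEquiv.apply_symm_apply, hE']
  · ext1 x
    rw [mul_ap, hu, hv, hE'K, LinearEquiv.symm_apply_apply, hE']
  · ext1 x
    rw [mul_ap, mul_ap, hu, hf x, hf, hE'K, hE'K, hU]

theorem RR_corner (e : RR) (he : e ∈ TwoSidedIdeal.span {pR}) (hee : e * e = e) (a : RR)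
    (ha : e * a * e = a) : ∃ u v : RR, e * u * e = u ∧ e * v * e = v ∧ u * v = e ∧ v * u = e ∧
      a = a * u * a := by
  classical
  have hle : TwoSidedIdeal.span {pR} ≤ FI := by
    rw [TwoSidedIdeal.span_le]
    rintro _ rfl
    exact (TwoSidedIdeal.mem_mk' _ _ _ _ _ _ _).2
      ⟨_, _, rfl, Filter.Eventually.of_forall fun _ => FR_r1 _ _⟩
  obtain ⟨E, hE, rfl⟩ := exists_mk e
  obtain ⟨A, hA, rfl⟩ := exists_mk a
  have h1 := mem_FI (hle he)
  rw [mk_mul, mk_eq] at hee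
  rw [mk_mul, mk_mul, mk_eq] at ha
  have h2 : ∀ᶠ w in (UU : Filter WW), ∃ u v : BB, E w * u * E w = u ∧ E w * v * E w = v ∧
      u * v = E w ∧ v * u = E w ∧ A w = A w * u * A w := by
    filter_upwards [h1, hee, ha] with w k1 k2 k3
    exact corner k1 k2 k3
  let P : WW → Prop := fun w => ∃ u v : BB, E w * u * E w = u ∧ E w * v * E w = v ∧
      u * v = E w ∧ v * u = E w ∧ A w = A w * u * A w
  let u : WW → BB := fun w => if h : P w then h.choose else 0
  let v : WW → BB := fun w => if h : P w then h.choose_spec.choose else 0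
  have h3 : ∀ᶠ w in (UU : Filter WW), E w * u w * E w = u w ∧ E w * v w * E w = v w ∧
      u w * v w = E w ∧ v w * u w = E w ∧ A w = A w * u w * A w := by
    filter_upwards [h2] with w hw
    have hP : P w := hw
    simp only [u, v]
    rw [dif_pos hP, dif_pos hP]
    exact hP.choose_spec.choose_spec
  have hu : Rats u := by
    apply Rats.of_FR
    filter_upwards [h1, h3] with w k1 k2
    rw [← k2.1]
    exact (k1.mul_right _).mul_right _
  have hv : Rats v := by
    apply Rats.of_FR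
    filter_upwards [h1, h3] with w k1 k2
    rw [← k2.2.1]
    exact (k1.mul_right _).mul_right _
  refine ⟨mk u hu, mk v hv, ?_, ?_, ?_, ?_, ?_⟩
  · rw [mk_mul, mk_mul, mk_eq]
    exact h3.mono fun w k => k.1
  · rw [mk_mul, mk_mul, mk_eq]
    exact h3.mono fun w k => k.2.1
  · rw [mk_mul, mk_eq]
    exact h3.mono fun w k => k.2.2.1
  · rw [mk_mul, mk_eq]
    exact h3.mono fun w k => k.2.2.2.1
  · rw [mk_mul, mk_mul, mk_eq]
    exact h3.mono fun w k => k.2.2.2.2

end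

end Pool.Agent.W408.SR
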