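import Pool.Agent.W408.SR.Ord

set_option autoImplicit false

/-!
# A bordered matrix which is singular for all sizes has a vanishing Schur complement
-/

namespace Pool.Agent.W408.SR

open Polynomial

noncomputable section

variable {κ : Type} [Fintype κ] [DecidableEq κ]

section Adj
set_option linter.unusedSectionVars false
variable {R S : Type*} [CommRing R] [CommRing S] {ι : Type*} [Fintype ι] [DecidableEq ι]

/-- the adjugate of a matrix of matrices -/
def adjE (B : Matrix κ κ (Matrix ι ι R)) : Matrix κ κ (Matrix ι ι R) :=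
  (Matrix.compRingEquiv κ ι R).symm (Matrix.compRingEquiv κ ι R B).adjugate

/-- the determinant of a matrix of matrices -/
def dtE (B : Matrix κ κ (Matrix ι ι R)) : R := (Matrix.compRingEquiv κ ι R B).det

theorem comp_smul_one (d : R) :
    Matrix.compRingEquiv κ ι R (d • 1) = d • 1 := by
  ext ⟨i, j⟩ ⟨k, l⟩
  change (d • (1 : Matrix κ κ (Matrix ι ι R))) i k j l = _
  simp only [Matrix.smul_apply, Matrix.one_apply, Prod.mk.injEq]
  by_cases h : i = k <;> by_cases h' : j = l <;> simp [h, h', Matrix.one_apply]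

theorem comp_symm_smul_one (d : R) :
    (Matrix.compRingEquiv κ ι R).symm (d • 1) = d • 1 := by
  rw [← comp_smul_one, RingEquiv.symm_apply_apply]

theorem adjE_mul (B : Matrix κ κ (Matrix ι ι R)) : adjE B * B = dtE B • 1 := by
  have h : adjE B * B = (Matrix.compRingEquiv κ ι R).symm
      ((Matrix.compRingEquiv κ ι R B).adjugate * Matrix.compRingEquiv κ ι R B) := by
    rw [map_mul, RingEquiv.symm_apply_apply]; rfl
  rw [h, Matrix.adjugate_mul, comp_symm_smul_one]; rfl

theorem adjE_mul_rev (B B' : Matrix κ κ (Matrix ι ι R)) : adjE (B * B') = adjE B' * adjE B := by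
  simp only [adjE, map_mul, Matrix.adjugate_mul_distrib]

theorem dtE_mul (B B' : Matrix κ κ (Matrix ι ι R)) : dtE (B * B') = dtE B * dtE B' := by
  simp only [dtE, map_mul, Matrix.det_mul]

theorem dtE_one : dtE (1 : Matrix κ κ (Matrix ι ι R)) = 1 := by
  rw [dtE, map_one, Matrix.det_one]

theorem adjE_eq {D D' : Matrix κ κ (Matrix ι ι R)} (h : D * D' = 1) : adjE D = dtE D • D' := by
  calc adjE D = adjE D * (D * D') := by rw [h, mul_one]
    _ = dtE D • D' := by rw [← mul_assoc, adjE_mul, smul_mul_assoc, one_mul]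

theorem adjE_conj {D D' : Matrix κ κ (Matrix ι ι R)} (h : D * D' = 1) (h' : D' * D = 1)
    (B : Matrix κ κ (Matrix ι ι R)) : adjE (D * B * D') = D * adjE B * D' := by
  rw [adjE_mul_rev, adjE_mul_rev, adjE_eq h, adjE_eq h']
  rw [smul_mul_assoc, mul_smul_comm, mul_smul_comm, smul_smul, ← dtE_mul, h', dtE_one, one_smul,
    mul_assoc]

theorem adjE_map (f : R →+* S) (B : Matrix κ κ (Matrix ι ι R)) :
    (adjE B).map (f.mapMatrix) = adjE (B.map (f.mapMatrix)) := by
  apply (Matrix.compRingEquiv κ ι S).injective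
  have h1 : ∀ Z : Matrix κ κ (Matrix ι ι R),
      Matrix.compRingEquiv κ ι S (Z.map (f.mapMatrix)) =
        f.mapMatrix (Matrix.compRingEquiv κ ι R Z) := by
    intro Z
    ext ⟨i, j⟩ ⟨k, l⟩
    rfl
  rw [h1, adjE, RingEquiv.apply_symm_apply, RingHom.map_adjugate, adjE, RingEquiv.apply_symm_apply,
    h1]

end Adj

section Schur
set_option linter.unusedSectionVars false
variable {R S : Type*} [CommRing R] [CommRing S] {ι : Type*} [Fintype ι] [DecidableEq ι]

/-- (a multiple of) the Schur complement -/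
def sc (A : Matrix κ κ Lam) (b c : κ → Lam) (P Q : Matrix ι ι R) : Matrix ι ι R :=
  (fun k => ev P Q (c k)) ⬝ᵥ (adjE (A.map (ev P Q))).mulVec (fun k => ev P Q (b k))

/-- the bordered matrix -/
def bord (A : Matrix κ κ Lam) (b c : κ → Lam) : Matrix (κ ⊕ Unit) (κ ⊕ Unit) Lam :=
  Matrix.fromBlocks A (Matrix.of fun k _ => b k) (Matrix.of fun _ k => c k) 0

theorem sc_map (f : R →+* S) (A : Matrix κ κ Lam) (b c : κ → Lam) (P Q : Matrix ι ι R) :
    (sc A b c P Q).map f = sc A b c (P.map f) (Q.map f) := by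
  have hA : (A.map (ev P Q)).map (f.mapMatrix) = A.map (ev (P.map f) (Q.map f)) := by
    ext1 i j
    exact map_ev (f.mapMatrix (m := ι)) P Q (A i j)
  have hx : ∀ x : Lam, (ev P Q x).map f = ev (P.map f) (Q.map f) x := fun x =>
    map_ev (f.mapMatrix (m := ι)) P Q x
  have h2 : (sc A b c P Q).map f = f.mapMatrix (sc A b c P Q) := rfl
  rw [h2, sc, sc, RingHom.map_dotProduct, ← hA, ← adjE_map]
  congr 1
  · funext k; exact hx _
  · funext k
    rw [Function.comp_apply, RingHom.map_mulVec]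
    congr 1
    funext k; exact hx _

/-- conjugation of matrices -/
def cj (T T' : Matrix ι ι R) (h : T * T' = 1) (h' : T' * T = 1) :
    Matrix ι ι R →+* Matrix ι ι R where
  toFun m := T * m * T'
  map_one' := by rw [mul_one, h]
  map_zero' := by simp
  map_add' x y := by rw [mul_add, add_mul]
  map_mul' x y := by
    calc T * (x * y) * T' = T * x * 1 * y * T' := by simp only [mul_assoc, one_mul]
      _ = T * x * T' * (T * y * T') := by rw [← h']; simp only [mul_assoc]

theorem sc_conj {T T' : Matrix ι ι R} (h : T * T' = 1) (h' : T' * T = 1)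
    (A : Matrix κ κ Lam) (b c : κ → Lam) (P Q : Matrix ι ι R) :
    sc A b c (T * P * T') (T * Q * T') = T * sc A b c P Q * T' := by
  have hx : ∀ x : Lam, ev (T * P * T') (T * Q * T') x = T * ev P Q x * T' := fun x =>
    (map_ev (cj T T' h h') P Q x).symm
  have hD : (Matrix.diagonal fun _ : κ => T) * (Matrix.diagonal fun _ : κ => T') = 1 := by
    rw [Matrix.diagonal_mul_diagonal, h]; simp
  have hD' : (Matrix.diagonal fun _ : κ => T') * (Matrix.diagonal fun _ : κ => T) = 1 := by
    rw [Matrix.diagonal_mul_diagonal, h']; simp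
  have hA : A.map (ev (T * P * T') (T * Q * T')) =
      (Matrix.diagonal fun _ : κ => T) * A.map (ev P Q) * (Matrix.diagonal fun _ : κ => T') := by
    ext1 i j
    rw [Matrix.mul_diagonal, Matrix.diagonal_mul, Matrix.map_apply, Matrix.map_apply, hx]
  rw [sc, sc, hA, adjE_conj hD hD']
  simp only [dotProduct, Matrix.mulVec, hx, Matrix.mul_diagonal, Matrix.diagonal_mul]
  simp only [Finset.mul_sum, Finset.sum_mul]
  refine Finset.sum_congr rfl fun i _ => Finset.sum_congr rfl fun j _ => ?_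
  calc T * ev P Q (c i) * T' * (T * adjE (A.map (ev P Q)) i j * T' * (T * ev P Q (b j) * T'))
      = T * ev P Q (c i) * (T' * T) * adjE (A.map (ev P Q)) i j * (T' * T) * ev P Q (b j) * T' := by
        simp only [mul_assoc]
    _ = _ := by rw [h']; simp only [mul_assoc, mul_one]

theorem exists_kill [IsDomain R] (A : Matrix κ κ Lam) (b c : κ → Lam) (P Q : Matrix ι ι R)
    (hN : dt (bord A b c) P Q = 0) (hA : dt A P Q ≠ 0) :
    ∃ V : Matrix ι ι R, V ≠ 0 ∧ sc A b c P Q * V = 0 := by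
  obtain ⟨v, hv, hv0⟩ := Matrix.exists_mulVec_eq_zero_iff.2 hN
  let V : κ ⊕ Unit → Matrix ι ι R := fun k => Matrix.of fun i _ => v (k, i)
  have hV : ∀ k, ∑ l, ev P Q (bord A b c k l) * V l = 0 := by
    intro k
    ext i j
    have h1 := congrFun hv0 (k, i)
    rw [Matrix.mulVec, dotProduct, Fintype.sum_prod_type] at h1
    simp only [Pi.zero_apply, Matrix.zero_apply] at h1 ⊢
    rw [← h1, Matrix.sum_apply]
    rfl
  -- the first components
  let V₁ : κ → Matrix ι ι R := fun k => V (Sum.inl k)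
  let V₂ : Matrix ι ι R := V (Sum.inr ())
  have e1 : (A.map (ev P Q)).mulVec V₁ = fun k => - (ev P Q (b k) * V₂) := by
    funext k
    have := hV (Sum.inl k)
    rw [Fintype.sum_sum_type] at this
    simp only [bord, Matrix.fromBlocks_apply₁₁, Matrix.fromBlocks_apply₁₂, Matrix.of_apply,
      Finset.univ_unique, Finset.sum_singleton] at this
    exact eq_neg_of_add_eq_zero_left this
  have e2 : (fun k => ev P Q (c k)) ⬝ᵥ V₁ = 0 := by
    have := hV (Sum.inr ())
    rw [Fintype.sum_sum_type] at this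
    simp only [bord, Matrix.fromBlocks_apply₂₁, Matrix.fromBlocks_apply₂₂, Matrix.of_apply,
      Finset.univ_unique, Finset.sum_singleton, Matrix.zero_apply, map_zero, zero_mul,
      add_zero] at this
    exact this
  have e3 : dt A P Q • V₁ = fun k => - ((adjE (A.map (ev P Q))).mulVec
      (fun k => ev P Q (b k)) k * V₂) := by
    have h1 := congrArg (fun z => (adjE (A.map (ev P Q))).mulVec z) e1
    simp only [Matrix.mulVec_mulVec, adjE_mul] at h1
    have h2 : (dtE (A.map (ev P Q)) • (1 : Matrix κ κ (Matrix ι ι R))).mulVec V₁ =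
        dt A P Q • V₁ := by
      rw [Matrix.smul_mulVec, Matrix.one_mulVec]; rfl
    rw [← h2, h1]
    funext k
    simp only [Matrix.mulVec, dotProduct, mul_neg, Finset.sum_neg_distrib, Finset.sum_mul,
      mul_assoc]
  refine ⟨V₂, ?_, ?_⟩
  · intro h0
    have h1 : V₁ = 0 := by
      funext k
      have h2 := congrFun e3 k
      rw [h0] at h2
      simp only [mul_zero, neg_zero, Pi.smul_apply] at h2
      rcases smul_eq_zero.1 h2 with h3 | h3
      · exact absurd h3 hA
      · exact h3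
    apply hv
    funext ⟨k, i⟩
    rcases k with k | k
    · exact congrFun (congrFun (congrFun h1 k) i) i
    · exact congrFun (congrFun h0 i) i
  · have h1 : (fun k => ev P Q (c k)) ⬝ᵥ (dt A P Q • V₁) = 0 := by
      rw [dotProduct_smul, e2, smul_zero]
    rw [e3] at h1
    have h2 : sc A b c P Q * V₂ = - ((fun k => ev P Q (c k)) ⬝ᵥ
        (fun k => - ((adjE (A.map (ev P Q))).mulVec (fun k => ev P Q (b k)) k * V₂))) := by
      simp only [sc, dotProduct, mul_neg, Finset.sum_neg_distrib, neg_neg, Finset.sum_mul,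
        mul_assoc]
    rw [h2, h1, neg_zero]

end Schur

section Twist

variable {n : ℕ} [NeZero n]

/-- the scaling of the inner variable -/
def t₁ (z : ℂ) : ℂ[X][X] →+* ℂ[X][X] := mapRingHom (compRingHom (C z * X))

/-- the scaling of the outer variable -/
def t₂ (z : ℂ) : ℂ[X][X] →+* ℂ[X][X] := compRingHom (C (C z) * X)

theorem t₁_coeff (z : ℂ) (p : ℂ[X][X]) (i j : ℕ) :
    ((t₁ z p).coeff i).coeff j = (p.coeff i).coeff j * z ^ j := by
  rw [t₁, coe_mapRingHom, coeff_map, coe_compRingHom_apply, comp_C_mul_X_coeff]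

theorem t₂_coeff (z : ℂ) (p : ℂ[X][X]) (i j : ℕ) :
    ((t₂ z p).coeff i).coeff j = (p.coeff i).coeff j * z ^ i := by
  rw [t₂, coe_compRingHom_apply, comp_C_mul_X_coeff, ← C_pow, coeff_mul_C]

/-- The twisted form of the ring of matrices. -/
def Fx (u : Matrix (ZMod n) (ZMod n) ℂ[X][X]) : Prop :=
  (∀ a b, t₁ (ZMod.stdAddChar (1 : ZMod n)) (u a b) = u (a + 1) (b + 1)) ∧
  (∀ a b, t₂ (ZMod.stdAddChar (1 : ZMod n)) (u a b) = C (C (ZMod.stdAddChar (a - b))) * u a b)

/-- the iterated coefficient matrices -/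
def cf (u : Matrix (ZMod n) (ZMod n) ℂ[X][X]) (i j : ℕ) : Matrix (ZMod n) (ZMod n) ℂ :=
  Matrix.of fun a b => ((u a b).coeff i).coeff j

/-- the passage to polynomials with matrix coefficients -/
def mp : Matrix (ZMod n) (ZMod n) ℂ[X][X] ≃+* (Matrix (ZMod n) (ZMod n) ℂ)[X][X] :=
  (matPolyEquiv.toRingEquiv).trans (mapEquiv matPolyEquiv.toRingEquiv)

theorem mp_coeff (u : Matrix (ZMod n) (ZMod n) ℂ[X][X]) (i j : ℕ) :
    ((mp u).coeff i).coeff j = cf u i j := by
  ext a b
  simp [mp, cf, matPolyEquiv_coeff_apply]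

theorem cf_regular {u : Matrix (ZMod n) (ZMod n) ℂ[X][X]} (hu : Fx u) (i j : ℕ)
    (h : cf u i j ≠ 0) (m : Matrix (ZMod n) (ZMod n) ℂ) (hm : cf u i j * m = 0) : m = 0 := by
  have h1 : ∀ a b, cf u i j a b * ZMod.stdAddChar (1 : ZMod n) ^ j = cf u i j (a + 1) (b + 1) := by
    intro a b
    have := congrArg (fun p : ℂ[X][X] => (p.coeff i).coeff j) (hu.1 a b)
    simp only [t₁_coeff] at this
    exact this
  have h2 : ∀ a b, cf u i j a b * ZMod.stdAddChar (1 : ZMod n) ^ i =
      ZMod.stdAddChar (a - b) * cf u i j a b := by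
    intro a b
    have := congrArg (fun p : ℂ[X][X] => (p.coeff i).coeff j) (hu.2 a b)
    simp only [t₂_coeff, coeff_C_mul] at this
    exact this
  have hz : ZMod.stdAddChar (1 : ZMod n) ≠ 0 := by
    intro h0
    have h1 := AddChar.map_add_eq_mul (ZMod.stdAddChar (N := n)) 1 (-1)
    rw [h0, zero_mul, add_neg_cancel, AddChar.map_zero_eq_one] at h1
    exact one_ne_zero h1
  -- entries away from one diagonal vanish
  have h3 : ∀ a b, a - b ≠ (i : ZMod n) → cf u i j a b = 0 := by
    intro a b hab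
    by_contra hne
    apply hab
    have h4 := h2 a b
    rw [mul_comm] at h4
    have h5 := mul_right_cancel₀ hne h4
    apply ZMod.injective_stdAddChar
    rw [← h5, ← AddChar.map_nsmul_eq_pow, nsmul_one]
  -- along this diagonal no entry vanishes
  have h4 : ∀ a b, cf u i j a b ≠ 0 → ∀ k : ℕ, cf u i j (a + k) (b + k) ≠ 0 := by
    intro a b hab k
    induction k with
    | zero => simpa using hab
    | succ k ih =>
      have := h1 (a + k) (b + k)
      rw [Nat.cast_succ, ← add_assoc, ← add_assoc, ← this]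
      exact mul_ne_zero ih (pow_ne_zero _ hz)
  obtain ⟨a₀, b₀, hab⟩ : ∃ a b, cf u i j a b ≠ 0 := by
    by_contra hc
    push Not at hc
    exact h (by ext a b; exact hc a b)
  have hab' : a₀ - b₀ = i := by
    by_contra hne
    exact hab (h3 _ _ hne)
  have h5 : ∀ a, cf u i j a (a - i) ≠ 0 := by
    intro a
    have h6 := h4 a₀ b₀ hab ((a - a₀).val)
    rw [ZMod.natCast_zmod_val] at h6
    have h7 : a₀ + (a - a₀) = a := by ring
    have h8 : b₀ + (a - a₀) = a - i := by rw [← hab']; ring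
    rwa [h7, h8] at h6
  ext a b
  have h6 := congrFun (congrFun hm (a + i)) b
  rw [Matrix.mul_apply, Finset.sum_eq_single a] at h6
  · have h7 := h5 (a + i)
    rw [add_sub_cancel_right] at h7
    exact (mul_eq_zero.1 h6).resolve_left h7
  · intro c _ hc
    rw [h3 (a + i) c, zero_mul]
    intro h8
    apply hc
    linear_combination -h8
  · intro h8
    exact absurd (Finset.mem_univ a) h8

theorem Fx_eq_zero {u V : Matrix (ZMod n) (ZMod n) ℂ[X][X]} (hu : Fx u) (hV : V ≠ 0)
    (h : u * V = 0) : u = 0 := by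
  by_contra hne
  have h1 : mp u ≠ 0 := (map_ne_zero_iff _ mp.injective).2 hne
  have h2 : mp V ≠ 0 := (map_ne_zero_iff _ mp.injective).2 hV
  have h3 : mp u * mp V = 0 := by rw [← map_mul, h, map_zero]
  have h4 : (mp u).leadingCoeff * (mp V).leadingCoeff = 0 := by
    rw [← coeff_mul_degree_add_degree, h3, coeff_zero]
  have h5 : (mp u).leadingCoeff.leadingCoeff * (mp V).leadingCoeff.leadingCoeff = 0 := by
    rw [← coeff_mul_degree_add_degree, h4, coeff_zero]
  have h6 : (mp u).leadingCoeff.leadingCoeff ≠ 0 := by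
    rw [Ne, leadingCoeff_eq_zero, leadingCoeff_eq_zero]; exact h1
  have h7 : (mp V).leadingCoeff.leadingCoeff ≠ 0 := by
    rw [Ne, leadingCoeff_eq_zero, leadingCoeff_eq_zero]; exact h2
  have h8 : (mp u).leadingCoeff.leadingCoeff =
      cf u (mp u).natDegree (mp u).leadingCoeff.natDegree := mp_coeff _ _ _
  rw [h8] at h5 h6
  exact h7 (cf_regular hu _ _ h6 _ h5)

/-- the shift -/
def sh (n : ℕ) [NeZero n] : Matrix (ZMod n) (ZMod n) ℂ[X][X] :=
  Matrix.of fun a b => if a + 1 = b then 1 else 0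

/-- the inverse of the shift -/
def sh' (n : ℕ) [NeZero n] : Matrix (ZMod n) (ZMod n) ℂ[X][X] :=
  Matrix.of fun a b => if a = b + 1 then 1 else 0

theorem sh_mul (u : Matrix (ZMod n) (ZMod n) ℂ[X][X]) (a b : ZMod n) :
    (sh n * u) a b = u (a + 1) b := by
  simp [sh, Matrix.mul_apply]

theorem mul_sh' (u : Matrix (ZMod n) (ZMod n) ℂ[X][X]) (a b : ZMod n) :
    (u * sh' n) a b = u a (b + 1) := by
  simp [sh', Matrix.mul_apply]

theorem sh_sh' : sh n * sh' n = 1 := by
  ext1 a b
  rw [sh_mul]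
  simp [sh', Matrix.one_apply]

theorem sh'_sh : sh' n * sh n = 1 := mul_eq_one_comm.1 sh_sh'

/-- the clock -/
def ck (n : ℕ) [NeZero n] : Matrix (ZMod n) (ZMod n) ℂ[X][X] :=
  Matrix.diagonal fun a => C (C (ZMod.stdAddChar a))

/-- the inverse of the clock -/
def ck' (n : ℕ) [NeZero n] : Matrix (ZMod n) (ZMod n) ℂ[X][X] :=
  Matrix.diagonal fun a => C (C (ZMod.stdAddChar (-a)))

theorem ck_ck' : ck n * ck' n = 1 := by
  rw [ck, ck', Matrix.diagonal_mul_diagonal, ← Matrix.diagonal_one]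
  congr 1
  funext a
  rw [← map_mul, ← map_mul, ← AddChar.map_add_eq_mul]
  simp

theorem ck'_ck : ck' n * ck n = 1 := mul_eq_one_comm.1 ck_ck'

theorem ck_conj (u : Matrix (ZMod n) (ZMod n) ℂ[X][X]) (a b : ZMod n) :
    (ck n * u * ck' n) a b = C (C (ZMod.stdAddChar (a - b))) * u a b := by
  rw [ck, ck', Matrix.mul_diagonal, Matrix.diagonal_mul, sub_eq_add_neg, AddChar.map_add_eq_mul,
    C_mul, C_mul]
  ring

theorem sh_conj (u : Matrix (ZMod n) (ZMod n) ℂ[X][X]) (a b : ZMod n) :
    (sh n * u * sh' n) a b = u (a + 1) (b + 1) := by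
  rw [mul_sh', sh_mul]

theorem Fx_iff (u : Matrix (ZMod n) (ZMod n) ℂ[X][X]) :
    Fx u ↔ u.map (t₁ (ZMod.stdAddChar (1 : ZMod n))) = sh n * u * sh' n ∧
      u.map (t₂ (ZMod.stdAddChar (1 : ZMod n))) = ck n * u * ck' n := by
  constructor
  · rintro ⟨h1, h2⟩
    constructor
    · ext1 a b
      rw [sh_conj, Matrix.map_apply, h1]
    · ext1 a b
      rw [ck_conj, Matrix.map_apply, h2]
  · rintro ⟨h1, h2⟩
    constructor
    · intro a b
      have := congrFun (congrFun h1 a) b
      rwa [sh_conj, Matrix.map_apply] at this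
    · intro a b
      have := congrFun (congrFun h2 a) b
      rwa [ck_conj, Matrix.map_apply] at this

theorem Fx_sc (A : Matrix κ κ Lam) (b c : κ → Lam) {P Q : Matrix (ZMod n) (ZMod n) ℂ[X][X]}
    (hP : Fx P) (hQ : Fx Q) : Fx (sc A b c P Q) := by
  rw [Fx_iff] at hP hQ ⊢
  constructor
  · rw [sc_map, hP.1, hQ.1, sc_conj sh_sh' sh'_sh]
  · rw [sc_map, hP.2, hQ.2, sc_conj ck_ck' ck'_ck]

/-- the lift of a matrix -/
def lf (P₀ : Matrix (ZMod n) (ZMod n) ℂ) : Matrix (ZMod n) (ZMod n) ℂ[X][X] :=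
  Matrix.of fun a b => ∑ i : ZMod n, monomial (a - b).val (monomial i.val
    ((n : ℂ)⁻¹ * (∑ c : ZMod n, ZMod.stdAddChar (i * (a - c)) * P₀ c (c - (a - b)))))

theorem std_pow (i : ZMod n) : ZMod.stdAddChar (1 : ZMod n) ^ i.val = ZMod.stdAddChar i := by
  rw [← AddChar.map_nsmul_eq_pow, nsmul_one, ZMod.natCast_zmod_val]

theorem Fx_lf (P₀ : Matrix (ZMod n) (ZMod n) ℂ) : Fx (lf P₀) := by
  constructor
  · intro a b
    simp only [lf, Matrix.of_apply, map_sum]
    refine Finset.sum_congr rfl fun i _ => ?_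
    rw [t₁, coe_mapRingHom, map_monomial, coe_compRingHom_apply, monomial_comp, mul_pow, ← C_pow,
      std_pow, ← mul_assoc, ← C_mul, C_mul_X_pow_eq_monomial, show a + 1 - (b + 1) = a - b by ring]
    congr 2
    rw [mul_assoc, Finset.sum_mul]
    congr 1
    refine Finset.sum_congr rfl fun c _ => ?_
    rw [show i * (a + 1 - c) = i * (a - c) + i by ring, AddChar.map_add_eq_mul]
    ring
  · intro a b
    simp only [lf, Matrix.of_apply]
    rw [map_sum, Finset.mul_sum]
    refine Finset.sum_congr rfl fun i _ => ?_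
    rw [t₂, coe_compRingHom_apply, monomial_comp, mul_pow, ← C_pow, ← C_pow,
      std_pow, ← mul_assoc, ← C_mul, C_mul_X_pow_eq_monomial, C_mul_monomial, mul_comm]

theorem lf_eval (P₀ : Matrix (ZMod n) (ZMod n) ℂ) :
    (lf P₀).map ((evalRingHom (1 : ℂ)).comp (evalRingHom (1 : ℂ[X]))) = P₀ := by
  ext a b
  have hn : (n : ℂ) ≠ 0 := Nat.cast_ne_zero.2 (NeZero.ne n)
  simp only [lf, Matrix.map_apply, Matrix.of_apply, map_sum, RingHom.comp_apply, coe_evalRingHom,
    eval_monomial, one_pow, mul_one]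
  rw [← Finset.mul_sum, Finset.sum_comm]
  have h1 : ∀ c : ZMod n, ∑ i : ZMod n, ZMod.stdAddChar (i * (a - c)) * P₀ c (c - (a - b)) =
      (if a = c then (n : ℂ) else 0) * P₀ c (c - (a - b)) := by
    intro c
    rw [← Finset.sum_mul, AddChar.sum_mulShift _ (ZMod.isPrimitive_stdAddChar n)]
    congr 1
    by_cases h : a = c
    · simp [h]
    · rw [if_neg (sub_ne_zero.2 h), if_neg h]; simp
  simp only [h1, ite_mul, zero_mul, Finset.sum_ite_eq, Finset.mem_univ, if_true]
  rw [← mul_assoc, inv_mul_cancel₀ hn, one_mul, sub_sub_cancel]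

end Twist

theorem poly2_ext {p : ℂ[X][X]}
    (h : ∀ s t : ℂ, ((evalRingHom t).comp (evalRingHom (C s : ℂ[X]))) p = 0) : p = 0 := by
  have h1 : ∀ s : ℂ, p.eval (C s) = 0 := by
    intro s
    apply Polynomial.funext
    intro t
    simpa using h s t
  apply Polynomial.eq_zero_of_infinite_isRoot
  refine Set.Infinite.mono (s := Set.range (C : ℂ → ℂ[X])) ?_ (Set.infinite_range_of_injective C_injective)
  rintro _ ⟨s, rfl⟩
  exact h1 s

theorem dt_poly2 {A : Matrix κ κ Lam} (hA : ¬ Gd A) {ι : Type} [Fintype ι] [DecidableEq ι]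
    [Nonempty ι] (P Q : Matrix ι ι ℂ[X][X]) : dt A P Q = 0 := by
  apply poly2_ext
  intro s t
  rw [dt_map]
  by_contra hne
  exact hA ⟨ι, inferInstance, inferInstance, Classical.arbitrary ι, _, _, hne⟩

/-- The domain property for the matrices over the complex numbers. -/
theorem domain_zmod {n : ℕ} [NeZero n] (A : Matrix κ κ Lam) (b c : κ → Lam)
    (hN : ¬ Gd (bord A b c))
    (P₀ Q₀ : Matrix (ZMod n) (ZMod n) ℂ) (hA : dt A P₀ Q₀ ≠ 0) : sc A b c P₀ Q₀ = 0 := by
  let e : ℂ[X][X] →+* ℂ := (evalRingHom (1 : ℂ)).comp (evalRingHom (1 : ℂ[X]))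
  have h1 : dt A (lf P₀) (lf Q₀) ≠ 0 := by
    intro h0
    apply hA
    have h2 := dt_map e A (lf P₀) (lf Q₀)
    rw [lf_eval, lf_eval, h0, map_zero] at h2
    exact h2.symm
  obtain ⟨V, hV, hV0⟩ := exists_kill A b c (lf P₀) (lf Q₀) (dt_poly2 hN _ _) h1
  have h2 := Fx_eq_zero (Fx_sc A b c (Fx_lf P₀) (Fx_lf Q₀)) hV hV0
  have h3 := sc_map e A b c (lf P₀) (lf Q₀)
  rw [lf_eval, lf_eval, h2] at h3
  rw [← h3]
  ext a b
  simp

theorem domain_fin {n : ℕ} (A : Matrix κ κ Lam) (b c : κ → Lam)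
    (hN : ¬ Gd (bord A b c))
    (P₀ Q₀ : Matrix (Fin (n + 1)) (Fin (n + 1)) ℂ) (hA : dt A P₀ Q₀ ≠ 0) : sc A b c P₀ Q₀ = 0 :=
  domain_zmod (n := n + 1) A b c hN P₀ Q₀ hA

/-- The domain property for the matrices over the ring of polynomials in two variables. -/
theorem domain_poly2 {n : ℕ} (A : Matrix κ κ Lam) (b c : κ → Lam)
    (hN : ¬ Gd (bord A b c))
    (P Q : Matrix (Fin (n + 1)) (Fin (n + 1)) ℂ[X][X]) (hA : dt A P Q ≠ 0) :
    sc A b c P Q = 0 := by
  ext1 i j
  have h1 : dt A P Q * sc A b c P Q i j = 0 := by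
    apply poly2_ext
    intro s t
    rw [map_mul, dt_map]
    by_cases h : dt A (P.map ((evalRingHom t).comp (evalRingHom (C s : ℂ[X]))))
      (Q.map ((evalRingHom t).comp (evalRingHom (C s : ℂ[X])))) = 0
    · rw [h, zero_mul]
    · have h2 := domain_fin A b c hN _ _ h
      have h3 := sc_map ((evalRingHom t).comp (evalRingHom (C s : ℂ[X]))) A b c P Q
      rw [h2] at h3
      have h4 := congrFun (congrFun h3 i) j
      rw [Matrix.map_apply] at h4
      rw [h4]
      simp
  exact (mul_eq_zero.1 h1).resolve_left hA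

end

end Pool.Agent.W408.SR
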