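import Mathlib

set_option autoImplicit false

/-!
# Evaluation of matrices over the free ring on two letters, and determinants
-/

namespace Pool.Agent.W408.SR

/-- The free ring on two letters. -/
abbrev Lam := FreeAlgebra ℤ Bool

noncomputable section

/-- the first letter -/
def gp : Lam := FreeAlgebra.ι ℤ true

/-- the second letter -/
def gq : Lam := FreeAlgebra.ι ℤ false

/-- Evaluation at a pair of elements of a ring. -/
def ev {E : Type*} [Ring E] (p q : E) : Lam →+* E :=
  (FreeAlgebra.lift ℤ (fun b : Bool => cond b p q)).toRingHom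

@[simp] theorem ev_gp {E : Type*} [Ring E] (p q : E) : ev p q gp = p := by
  simp [ev, gp]

@[simp] theorem ev_gq {E : Type*} [Ring E] (p q : E) : ev p q gq = q := by
  simp [ev, gq]

theorem lam_hom_ext {E : Type*} [Ring E] {f g : Lam →+* E} (hp : f gp = g gp)
    (hq : f gq = g gq) : f = g := by
  have h : (f.toIntAlgHom : Lam →ₐ[ℤ] E) = g.toIntAlgHom := by
    apply FreeAlgebra.hom_ext
    funext b
    cases b
    · exact hq
    · exact hp
  ext x
  exact congrArg (fun k : Lam →ₐ[ℤ] E => k x) h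

theorem comp_ev {E E' : Type*} [Ring E] [Ring E'] (φ : E →+* E') (p q : E) :
    φ.comp (ev p q) = ev (φ p) (φ q) := by
  apply lam_hom_ext <;> simp

theorem map_ev {E E' : Type*} [Ring E] [Ring E'] (φ : E →+* E') (p q : E) (x : Lam) :
    φ (ev p q x) = ev (φ p) (φ q) x := by
  rw [← comp_ev]; rfl

variable {κ κ' : Type} [Fintype κ] [DecidableEq κ] [Fintype κ'] [DecidableEq κ']

section
variable {R S : Type*} [CommRing R] [CommRing S]
variable {ι ι' : Type*} [Fintype ι] [DecidableEq ι] [Fintype ι'] [DecidableEq ι']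

/-- The big matrix obtained from the matrix `A` over the free ring by evaluation at `(P, Q)`. -/
def big (A : Matrix κ κ Lam) (P Q : Matrix ι ι R) : Matrix (κ × ι) (κ × ι) R :=
  Matrix.compRingEquiv κ ι R (A.map (ev P Q))

theorem big_apply (A : Matrix κ κ Lam) (P Q : Matrix ι ι R) (i k : κ) (j l : ι) :
    big A P Q (i, j) (k, l) = ev P Q (A i k) j l := rfl

/-- The determinant of the matrix obtained from `A` by evaluation at the pair `(P, Q)`. -/
def dt (A : Matrix κ κ Lam) (P Q : Matrix ι ι R) : R := (big A P Q).det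

theorem big_map (f : R →+* S) (A : Matrix κ κ Lam) (P Q : Matrix ι ι R) :
    (big A P Q).map f = big A (P.map f) (Q.map f) := by
  ext ⟨i, j⟩ ⟨k, l⟩
  have h := map_ev (f.mapMatrix (m := ι)) P Q (A i k)
  have h2 := congrFun (congrFun h j) l
  simpa [big_apply] using h2

theorem dt_map (f : R →+* S) (A : Matrix κ κ Lam) (P Q : Matrix ι ι R) :
    f (dt A P Q) = dt A (P.map f) (Q.map f) := by
  rw [dt, dt, ← big_map, RingHom.map_det]
  rfl

theorem dt_reindex (e : ι ≃ ι') (A : Matrix κ κ Lam) (P Q : Matrix ι ι R) :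
    dt A (Matrix.reindex e e P) (Matrix.reindex e e Q) = dt A P Q := by
  have h : big A (Matrix.reindex e e P) (Matrix.reindex e e Q) =
      Matrix.reindex ((Equiv.refl κ).prodCongr e) ((Equiv.refl κ).prodCongr e) (big A P Q) := by
    ext ⟨i, j⟩ ⟨k, l⟩
    have h := map_ev ((Matrix.reindexRingEquiv R e).toRingHom) P Q (A i k)
    have h2 := congrFun (congrFun h j) l
    simpa [big_apply] using h2.symm
  rw [dt, h, Matrix.det_reindex_self, dt]

/-- block diagonal matrices with two blocks -/
def two {R : Type*} [CommRing R] {ι ι' : Type*} [Fintype ι] [DecidableEq ι] [Fintype ι']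
    [DecidableEq ι'] : Matrix ι ι R × Matrix ι' ι' R →+* Matrix (ι ⊕ ι') (ι ⊕ ι') R where
  toFun x := Matrix.fromBlocks x.1 0 0 x.2
  map_one' := by simp
  map_zero' := by simp
  map_add' x y := by simp [Matrix.fromBlocks_add]
  map_mul' x y := by simp [Matrix.fromBlocks_multiply]

theorem ev_prod {E E' : Type*} [Ring E] [Ring E'] (p q : E) (p' q' : E') (x : Lam) :
    ev (p, p') (q, q') x = (ev p q x, ev p' q' x) := by
  have h1 := map_ev (RingHom.fst E E') (p, p') (q, q') x
  have h2 := map_ev (RingHom.snd E E') (p, p') (q, q') x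
  exact Prod.ext h1 h2

theorem dt_blocks (A : Matrix κ κ Lam) (P Q : Matrix ι ι R) (P' Q' : Matrix ι' ι' R) :
    dt A (Matrix.fromBlocks P 0 0 P') (Matrix.fromBlocks Q 0 0 Q') = dt A P Q * dt A P' Q' := by
  have h : big A (Matrix.fromBlocks P 0 0 P') (Matrix.fromBlocks Q 0 0 Q') =
      Matrix.reindex (Equiv.prodSumDistrib κ ι ι').symm (Equiv.prodSumDistrib κ ι ι').symm
        (Matrix.fromBlocks (big A P Q) 0 0 (big A P' Q')) := by
    ext ⟨i, j⟩ ⟨k, l⟩
    have h := map_ev (two (R := R) (ι := ι) (ι' := ι')) (P, P') (Q, Q') (A i k)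
    rw [ev_prod] at h
    have h2 := congrFun (congrFun h j) l
    rcases j with j | j <;> rcases l with l | l <;> simpa [big_apply, two] using h2.symm
  rw [dt, h, Matrix.det_reindex_self, Matrix.det_fromBlocks_zero₂₁, dt, dt]

theorem dt_pow {o : Type*} [Fintype o] [DecidableEq o] (A : Matrix κ κ Lam)
    (P Q : Matrix ι ι R) :
    dt A (Matrix.blockDiagonal fun _ : o => P) (Matrix.blockDiagonal fun _ : o => Q) =
      dt A P Q ^ Fintype.card o := by
  have h : big A (Matrix.blockDiagonal fun _ : o => P) (Matrix.blockDiagonal fun _ : o => Q) =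
      Matrix.reindex (Equiv.prodAssoc κ ι o) (Equiv.prodAssoc κ ι o)
        (Matrix.blockDiagonal fun _ : o => big A P Q) := by
    ext ⟨i, j, s⟩ ⟨k, l, t⟩
    have h := map_ev (Matrix.blockDiagonalRingHom ι o R) (fun _ => P) (fun _ => Q) (A i k)
    have h0 : ev (fun _ : o => P) (fun _ : o => Q) (A i k) = fun _ => ev P Q (A i k) := by
      funext s
      exact map_ev (Pi.evalRingHom (fun _ : o => Matrix ι ι R) s) (fun _ => P) (fun _ => Q) (A i k)
    rw [h0] at h
    have h2 := congrFun (congrFun h (j, s)) (l, t)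
    simpa [big_apply, Matrix.blockDiagonal_apply] using h2.symm
  rw [dt, h, Matrix.det_reindex_self, Matrix.det_blockDiagonal]
  simp [dt]

theorem dt_two (A : Matrix κ κ Lam) (A' : Matrix κ' κ' Lam) (P Q : Matrix ι ι R) :
    dt (Matrix.fromBlocks A 0 0 A') P Q = dt A P Q * dt A' P Q := by
  have h : big (Matrix.fromBlocks A 0 0 A') P Q =
      Matrix.reindex (Equiv.sumProdDistrib κ κ' ι).symm (Equiv.sumProdDistrib κ κ' ι).symm
        (Matrix.fromBlocks (big A P Q) 0 0 (big A' P Q)) := by
    ext ⟨i, j⟩ ⟨k, l⟩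
    rcases i with i | i <;> rcases k with k | k <;> simp [big_apply]
  rw [dt, h, Matrix.det_reindex_self, Matrix.det_fromBlocks_zero₂₁, dt, dt]

theorem dt_upper (A : Matrix κ κ Lam) (B : Matrix κ κ' Lam) (A' : Matrix κ' κ' Lam)
    (P Q : Matrix ι ι R) :
    dt (Matrix.fromBlocks A B 0 A') P Q = dt A P Q * dt A' P Q := by
  have h : big (Matrix.fromBlocks A B 0 A') P Q =
      Matrix.reindex (Equiv.sumProdDistrib κ κ' ι).symm (Equiv.sumProdDistrib κ κ' ι).symm
        (Matrix.fromBlocks (big A P Q) (Matrix.comp κ κ' ι ι R (B.map (ev P Q))) 0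
          (big A' P Q)) := by
    ext ⟨i, j⟩ ⟨k, l⟩
    rcases i with i | i <;> rcases k with k | k <;> simp [big_apply, Matrix.comp_apply]
  rw [dt, h, Matrix.det_reindex_self, Matrix.det_fromBlocks_zero₂₁, dt, dt]

end

end

end Pool.Agent.W408.SR
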