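import Mathlib

set_option autoImplicit false

/-!
# Operators on the sequence space modulo the ones of finite rank
-/

namespace Pool.Agent.W408.SR

open scoped InnerProductSpace

noncomputable section

/-- the Hilbert space -/
abbrev HH := lp (fun _ : ℕ => ℂ) 2

/-- the ring of bounded operators -/
abbrev BB := HH →L[ℂ] HH

/-- finite rank -/
def FR (T : BB) : Prop := FiniteDimensional ℂ (LinearMap.range (T : HH →ₗ[ℂ] HH))

theorem FR.of_le {T : BB} {K : Submodule ℂ HH} [FiniteDimensional ℂ K]
    (h : ∀ x, T x ∈ K) : FR T := by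
  have : LinearMap.range (T : HH →ₗ[ℂ] HH) ≤ K := by
    rintro _ ⟨x, rfl⟩
    exact h x
  exact Submodule.finiteDimensional_of_le this

theorem FR.zero : FR (0 : BB) :=
  FR.of_le (K := ⊥) (fun x => by simp)

theorem FR.add {T T' : BB} (h : FR T) (h' : FR T') : FR (T + T') := by
  unfold FR at h h'
  exact FR.of_le (K := LinearMap.range (T : HH →ₗ[ℂ] HH) ⊔ LinearMap.range (T' : HH →ₗ[ℂ] HH))
    (fun x => Submodule.add_mem_sup ⟨x, rfl⟩ ⟨x, rfl⟩)

theorem FR.mul_right {T : BB} (h : FR T) (A : BB) : FR (T * A) := by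
  unfold FR at h
  exact FR.of_le (K := LinearMap.range (T : HH →ₗ[ℂ] HH)) (fun x => ⟨A x, rfl⟩)

theorem FR.mul_left {T : BB} (h : FR T) (A : BB) : FR (A * T) := by
  unfold FR at h
  exact FR.of_le (K := (LinearMap.range (T : HH →ₗ[ℂ] HH)).map (A : HH →ₗ[ℂ] HH))
    (fun x => ⟨T x, ⟨x, rfl⟩, rfl⟩)

theorem FR.neg {T : BB} (h : FR T) : FR (-T) := by
  have := h.mul_left (-1)
  simpa using this

/-- the orthogonal projection onto the range -/
theorem FR.exists_proj {T : BB} (h : FR T) : ∃ P : BB, FR P ∧ P * T = T ∧ star P = P ∧ P * P = P ∧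
    ∀ x, P x ∈ LinearMap.range (T : HH →ₗ[ℂ] HH) := by
  unfold FR at h
  let K := LinearMap.range (T : HH →ₗ[ℂ] HH)
  have hm : ∀ x, K.starProjection x ∈ K := fun x => Submodule.starProjection_apply_mem K x
  refine ⟨K.starProjection, FR.of_le (K := K) hm, ?_, ?_, ?_, hm⟩
  · ext1 x
    exact Submodule.starProjection_eq_self_iff.2 ⟨x, rfl⟩
  · exact (isSelfAdjoint_starProjection K)
  · exact (Submodule.isIdempotentElem_starProjection K)

theorem FR.adj {T : BB} (h : FR T) : FR (star T) := by
  obtain ⟨P, hP, h1, h2, -, -⟩ := h.exists_proj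
  have : star T = star T * P := by
    rw [← h2, ← star_mul, h1]
  rw [this]
  exact hP.mul_left _

/-- the operators of finite rank -/
def FF : TwoSidedIdeal BB :=
  TwoSidedIdeal.mk' {T | FR T} FR.zero (fun h h' => h.add h') (fun h => h.neg)
    (fun h => h.mul_left _) (fun h => h.mul_right _)

theorem mem_FF {T : BB} : T ∈ FF ↔ FR T := by
  simp [FF, TwoSidedIdeal.mem_mk']

/-- the quotient -/
abbrev QQ := FF.ringCon.Quotient

/-- the quotient map -/
def qm : BB →+* QQ := FF.ringCon.mk'

theorem qm_surj : Function.Surjective qm := RingCon.mk'_surjective _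

theorem qm_eq_zero {T : BB} : qm T = 0 ↔ FR T := by
  rw [← mem_FF, TwoSidedIdeal.mem_iff, ← RingCon.eq]
  rfl

theorem qm_eq {T T' : BB} : qm T = qm T' ↔ FR (T - T') := by
  rw [← qm_eq_zero, map_sub, sub_eq_zero]

/-- operators of finite rank are regular -/
theorem FR.regular {T : BB} (h : FR T) : ∃ G : BB, T * G * T = T := by
  obtain ⟨P, hP, h1, h2, h3, h4⟩ := h.exists_proj
  unfold FR at h
  obtain ⟨s, hs⟩ := LinearMap.exists_rightInverse_of_surjective
    (LinearMap.rangeRestrict (T : HH →ₗ[ℂ] HH)) (LinearMap.range_rangeRestrict _)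
  let s' := LinearMap.toContinuousLinearMap s
  let P' : HH →L[ℂ] (LinearMap.range (T : HH →ₗ[ℂ] HH)) := P.codRestrict _ h4
  refine ⟨s'.comp P', ?_⟩
  ext1 x
  have hx : P' (T x) = ⟨T x, ⟨x, rfl⟩⟩ := by
    apply Subtype.ext
    exact congrArg (fun A : BB => A x) h1
  have h5 := congrArg (fun f => ((f ⟨T x, ⟨x, rfl⟩⟩ : LinearMap.range (T : HH →ₗ[ℂ] HH)) : HH)) hs
  change T (s (P' (T x))) = T x
  rw [hx]
  exact h5

/-- elements which are regular modulo the operators of finite rank are regular -/
theorem regular_of_sub {x a : BB} (h : FR (x - x * a * x)) : ∃ b : BB, x * b * x = x := by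
  obtain ⟨g, hg⟩ := h.regular
  refine ⟨a + (1 - a * x) * g * (1 - x * a), ?_⟩
  have h1 : x * (a + (1 - a * x) * g * (1 - x * a)) * x =
      x * a * x + (x - x * a * x) * g * (x - x * a * x) := by
    noncomm_ring
  rw [h1, hg]
  abel

theorem exists_refl_inv {x : BB} (h : qm x = 0 ∨ IsUnit (qm x)) :
    ∃ b : BB, x * b * x = x ∧ b * x * b = b := by
  obtain ⟨a, ha⟩ : ∃ a, x * a * x = x := by
    rcases h with h | h
    · exact (qm_eq_zero.1 h).regular
    · obtain ⟨u, hu⟩ := h
      obtain ⟨a, ha⟩ := qm_surj (↑u⁻¹ : QQ)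
      apply regular_of_sub (a := a)
      rw [← qm_eq_zero, map_sub, map_mul, map_mul, ha, ← hu]
      simp
  exact ⟨a * x * a, by
    calc x * (a * x * a) * x = (x * a * x) * a * x := by simp only [mul_assoc]
      _ = x := by rw [ha, ha], by
    calc a * x * a * x * (a * x * a) = a * (x * a * x) * a * x * a := by simp only [mul_assoc]
      _ = a * x * a * x * a := by rw [ha]
      _ = a * (x * a * x) * a := by simp only [mul_assoc]
      _ = a * x * a := by rw [ha]⟩

theorem star_mul_self_eq_zero' {x : BB} (h : star x * x = 0) : x = 0 :=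
  CStarRing.star_mul_self_eq_zero_iff x |>.1 h


/-! ### The isometries -/

/-- the basis vectors -/
def ee (k : ℕ) : HH := lp.single 2 k (1 : ℂ)

theorem inner_ee (k l : ℕ) : ⟪ee k, ee l⟫_ℂ = if k = l then 1 else 0 := by
  rw [ee, lp.inner_single_left, ee, lp.single_apply, Pi.single_apply]
  by_cases h : k = l <;> simp [h]

theorem ee_orthonormal : Orthonormal ℂ ee := by
  rw [orthonormal_iff_ite]
  exact inner_ee

/-- the isometry given by an injective map -/
def iso (f : ℕ → ℕ) (hf : Function.Injective f) : HH →ₗᵢ[ℂ] HH :=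
  (ee_orthonormal.comp f hf).orthogonalFamily.linearIsometry

theorem iso_ee (f : ℕ → ℕ) (hf : Function.Injective f) (k : ℕ) : iso f hf (ee k) = ee (f k) := by
  rw [iso, ee, OrthogonalFamily.linearIsometry_apply_single]
  simp

/-- the operator given by an injective map -/
def VV (f : ℕ → ℕ) (hf : Function.Injective f) : BB := (iso f hf).toContinuousLinearMap

theorem VV_ee (f : ℕ → ℕ) (hf : Function.Injective f) (k : ℕ) : VV f hf (ee k) = ee (f k) :=
  iso_ee f hf k

theorem mul_ap (T T' : BB) (x : HH) : (T * T') x = T (T' x) := rfl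

theorem op_ext {T T' : BB} (h : ∀ k, T (ee k) = T' (ee k)) : T = T' := by
  apply lp.ext_continuousLinearMap (by simp)
  intro k
  ext1
  exact h k

theorem inner_adj (T T' : BB) (x y : HH) : ⟪x, (star T * T') y⟫_ℂ = ⟪T x, T' y⟫_ℂ :=
  ContinuousLinearMap.adjoint_inner_right T x (T' y)

theorem op_ext_inner {T T' : BB} (h : ∀ k l, ⟪ee k, T (ee l)⟫_ℂ = ⟪ee k, T' (ee l)⟫_ℂ) : T = T' := by
  apply op_ext
  intro l
  ext k
  have := h k l
  rw [ee, lp.inner_single_left, lp.inner_single_left] at this
  simpa using this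

theorem VV_self (f : ℕ → ℕ) (hf : Function.Injective f) : star (VV f hf) * VV f hf = 1 := by
  apply op_ext_inner
  intro k l
  rw [inner_adj, VV_ee, VV_ee, inner_ee, one_apply_eq_self, inner_ee]
  simp only [hf.eq_iff]

theorem VV_disj (f g : ℕ → ℕ) (hf : Function.Injective f) (hg : Function.Injective g)
    (h : ∀ k l, f k ≠ g l) : star (VV f hf) * VV g hg = 0 := by
  apply op_ext_inner
  intro k l
  rw [inner_adj, VV_ee, VV_ee, inner_ee, if_neg (h k l)]
  simp

/-- the shift -/
def SS : BB := VV (fun k => k + 1) (fun a b h => by simpa using h)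

theorem SS_ee (k : ℕ) : SS (ee k) = ee (k + 1) := VV_ee _ _ k

theorem SS_self : star SS * SS = 1 := VV_self _ _

theorem SS_defect : FR (1 - SS * star SS) := by
  have h0 : ∀ k, (1 - SS * star SS) (ee (k + 1)) = 0 := by
    intro k
    have h1 : (1 - SS * star SS) * SS = 0 := by
      rw [sub_mul, mul_assoc, SS_self, one_mul, mul_one, sub_self]
    rw [← SS_ee, ← mul_ap, h1]
    rfl
  let G : BB := (innerSL ℂ (ee 0)).smulRight ((1 - SS * star SS) (ee 0))
  have h3 : 1 - SS * star SS = G := by
    apply op_ext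
    intro k
    rw [ContinuousLinearMap.smulRight_apply, innerSL_apply_apply, inner_ee]
    rcases k with _ | k
    · simp
    · rw [h0 k]; simp
  rw [h3]
  refine FR.of_le (K := ℂ ∙ ((1 - SS * star SS) (ee 0))) (fun x => ?_)
  rw [ContinuousLinearMap.smulRight_apply]
  exact Submodule.smul_mem _ _ (Submodule.mem_span_singleton_self _)

theorem SS_ne : SS * star SS ≠ 1 := by
  intro h
  have h1 : ∀ x : HH, ⟪ee 0, SS x⟫_ℂ = 0 := by
    have h2 : star SS (ee 0) = 0 := by
      ext k
      have h3 : ⟪ee k, star SS (ee 0)⟫_ℂ = 0 := by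
        have := inner_adj SS 1 (ee k) (ee 0)
        rw [mul_one] at this
        rw [this, SS_ee, one_apply_eq_self, inner_ee]
        simp
      rw [ee, lp.inner_single_left] at h3
      simpa using h3
    intro x
    have := ContinuousLinearMap.adjoint_inner_left SS x (ee 0)
    rw [← this]
    change ⟪(star SS) (ee 0), x⟫_ℂ = 0
    rw [h2, inner_zero_left]
  have h3 : ⟪ee 0, (SS * star SS) (ee 0)⟫_ℂ = 0 := by
    rw [mul_ap, h1]
  rw [h, one_apply_eq_self, inner_ee, if_pos rfl] at h3
  exact one_ne_zero h3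

section Cuntz

variable {m : ℕ} [NeZero m]

/-- the family of isometries with orthogonal ranges -/
def cu (m : ℕ) [NeZero m] (i : Fin m) : BB :=
  VV (fun k => m * k + i) (fun a b h => by
    have h1 : m * a = m * b := by simpa using h
    exact Nat.eq_of_mul_eq_mul_left (Nat.pos_of_ne_zero (NeZero.ne m)) h1)

theorem cu_star_mul (i j : Fin m) : star (cu m i) * cu m j = if i = j then 1 else 0 := by
  by_cases h : i = j
  · subst h
    rw [if_pos rfl]
    exact VV_self _ _
  · rw [if_neg h]
    apply VV_disj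
    intro k l hkl
    apply h
    have h1 := congrArg (fun x => x % m) hkl
    simp only [Nat.mul_add_mod] at h1
    rw [Nat.mod_eq_of_lt i.2, Nat.mod_eq_of_lt j.2] at h1
    exact Fin.ext h1

theorem cu_sum : ∑ i : Fin m, cu m i * star (cu m i) = 1 := by
  apply op_ext
  intro k
  have hm : 0 < m := Nat.pos_of_ne_zero (NeZero.ne m)
  let j : Fin m := ⟨k % m, Nat.mod_lt _ hm⟩
  have h1 : ee k = cu m j (ee (k / m)) := by
    rw [cu, VV_ee]
    congr 1
    exact (Nat.div_add_mod k m).symm
  have h2 : (∑ i : Fin m, cu m i * star (cu m i)) * cu m j = cu m j := by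
    rw [Finset.sum_mul, Finset.sum_eq_single j]
    · rw [mul_assoc, cu_star_mul, if_pos rfl, mul_one]
    · intro i _ hi
      rw [mul_assoc, cu_star_mul, if_neg hi, mul_zero]
    · intro h; exact absurd (Finset.mem_univ j) h
  rw [h1, ← mul_ap, h2]
  rfl

theorem cu_star_mul_sum (N : Matrix (Fin m) (Fin m) BB) (j : Fin m) :
    star (cu m j) * (∑ k, ∑ l, cu m k * N k l * star (cu m l)) = ∑ l, N j l * star (cu m l) := by
  rw [Finset.mul_sum, Finset.sum_eq_single j]
  · rw [Finset.mul_sum]
    refine Finset.sum_congr rfl fun l _ => ?_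
    rw [← mul_assoc, ← mul_assoc, cu_star_mul, if_pos rfl, one_mul]
  · intro k _ hk
    rw [Finset.mul_sum]
    refine Finset.sum_eq_zero fun l _ => ?_
    rw [← mul_assoc, ← mul_assoc, cu_star_mul, if_neg (Ne.symm hk), zero_mul, zero_mul]
  · intro h; exact absurd (Finset.mem_univ j) h

/-- the isomorphism from the ring of matrices to the ring of operators -/
def Psi (m : ℕ) [NeZero m] : Matrix (Fin m) (Fin m) BB →+* BB where
  toFun M := ∑ i, ∑ j, cu m i * M i j * star (cu m j)
  map_zero' := by simp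
  map_one' := by
    rw [← cu_sum (m := m)]
    refine Finset.sum_congr rfl fun i _ => ?_
    rw [Finset.sum_eq_single i]
    · simp
    · intro j _ hj; simp [Matrix.one_apply, Ne.symm hj]
    · intro h; exact absurd (Finset.mem_univ i) h
  map_add' M N := by
    simp only [Matrix.add_apply, mul_add, add_mul, Finset.sum_add_distrib]
  map_mul' M N := by
    rw [Finset.sum_mul]
    refine Finset.sum_congr rfl fun i _ => ?_
    have h1 : ∀ j, cu m i * M i j * star (cu m j) * (∑ k, ∑ l, cu m k * N k l * star (cu m l)) =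
        ∑ l, cu m i * (M i j * N j l) * star (cu m l) := by
      intro j
      rw [mul_assoc, cu_star_mul_sum, Finset.mul_sum]
      refine Finset.sum_congr rfl fun l _ => ?_
      simp only [mul_assoc]
    rw [Finset.sum_mul]
    simp only [h1]
    rw [Finset.sum_comm]
    refine Finset.sum_congr rfl fun l _ => ?_
    rw [Matrix.mul_apply, Finset.mul_sum, Finset.sum_mul]

theorem Psi_apply (M : Matrix (Fin m) (Fin m) BB) :
    Psi m M = ∑ i, ∑ j, cu m i * M i j * star (cu m j) := rfl

theorem Psi_star (M : Matrix (Fin m) (Fin m) BB) : Psi m (M.conjTranspose) = star (Psi m M) := by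
  rw [Psi_apply, Psi_apply, star_sum, Finset.sum_comm]
  refine Finset.sum_congr rfl fun i _ => ?_
  rw [star_sum]
  refine Finset.sum_congr rfl fun j _ => ?_
  rw [star_mul, star_mul, star_star, Matrix.conjTranspose_apply, mul_assoc]

theorem Psi_inj : Function.Injective (Psi m) := by
  intro M N h
  ext1 i j
  have h1 : ∀ M : Matrix (Fin m) (Fin m) BB, star (cu m i) * Psi m M * cu m j = M i j := by
    intro M
    rw [Psi_apply, cu_star_mul_sum, Finset.sum_mul, Finset.sum_eq_single j]
    · rw [mul_assoc, cu_star_mul, if_pos rfl, mul_one]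
    · intro k _ hk
      rw [mul_assoc, cu_star_mul, if_neg hk, mul_zero]
    · intro h; exact absurd (Finset.mem_univ j) h
  rw [← h1 M, ← h1 N, h]

/-- the isomorphism from the ring of matrices over the quotient to the quotient -/
def Psq (m : ℕ) [NeZero m] : Matrix (Fin m) (Fin m) QQ →+* QQ where
  toFun M := ∑ i, ∑ j, qm (cu m i) * M i j * qm (star (cu m j))
  map_zero' := by simp
  map_one' := by
    have h := congrArg qm (map_one (Psi m))
    rw [Psi_apply, map_sum] at h
    simp only [map_sum, map_mul] at h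
    rw [map_one] at h
    rw [← h]
    refine Finset.sum_congr rfl fun i _ => Finset.sum_congr rfl fun j _ => ?_
    congr 2
    by_cases hij : i = j <;> simp [hij, Matrix.one_apply]
  map_add' M N := by
    simp only [Matrix.add_apply, mul_add, add_mul, Finset.sum_add_distrib]
  map_mul' M N := by
    have hs : ∀ Z : Matrix (Fin m) (Fin m) QQ, ∃ Z' : Matrix (Fin m) (Fin m) BB, Z'.map qm = Z := by
      intro Z
      choose Z' hZ' using fun i j => qm_surj (Z i j)
      exact ⟨Matrix.of Z', by ext1 i j; exact hZ' i j⟩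
    obtain ⟨M, rfl⟩ := hs M
    obtain ⟨N, rfl⟩ := hs N
    have h : ∀ Z : Matrix (Fin m) (Fin m) BB,
        ∑ i, ∑ j, qm (cu m i) * (Z.map qm) i j * qm (star (cu m j)) = qm (Psi m Z) := by
      intro Z
      simp only [Psi_apply, map_sum, map_mul]
      rfl
    rw [← Matrix.map_mul, h, h, h, map_mul, map_mul]

theorem Psq_map (M : Matrix (Fin m) (Fin m) BB) : Psq m (M.map qm) = qm (Psi m M) := by
  rw [Psi_apply, map_sum]
  simp only [map_sum, map_mul]
  rfl

end Cuntz

end

end Pool.Agent.W408.SR
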