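import Pool.Agent.W408.SR.Dom
import Pool.Agent.W408.SR.Op

set_option autoImplicit false

/-!
# Evaluation at left invertible operators which are not right invertible
-/

namespace Pool.Agent.W408.SR

open Polynomial

noncomputable section

/-- the scalars in the quotient -/
def k₀ : ℂ →+* QQ := qm.comp (algebraMap ℂ BB)

/-- the multiple of the shift -/
def Sa (t : ℝ) : BB := (t : ℂ) • SS

/-- the multiple of the adjoint of the shift -/
def Sb (t : ℝ) : BB := (t : ℂ) • star SS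

theorem star_Sa (t : ℝ) : star (Sa t) = Sb t := by
  rw [Sa, Sb, star_smul]
  simp

theorem Sb_Sa (t : ℝ) : Sb t * Sa t = algebraMap ℂ BB ((t : ℂ) * t) := by
  rw [Sa, Sb, smul_mul_smul_comm, SS_self, Algebra.algebraMap_eq_smul_one]

theorem qm_Sa_Sb (t : ℝ) : qm (Sa t) * qm (Sb t) = k₀ ((t : ℂ) * t) := by
  rw [← map_mul, k₀, RingHom.comp_apply, Sa, Sb, smul_mul_smul_comm,
    Algebra.algebraMap_eq_smul_one, qm_eq]
  rw [← smul_sub]
  have := (SS_defect.neg).mul_left (((t : ℂ) * t) • (1 : BB))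
  rw [neg_sub, smul_mul_assoc, one_mul] at this
  exact this

theorem qm_Sb_Sa (t : ℝ) : qm (Sb t) * qm (Sa t) = k₀ ((t : ℂ) * t) := by
  rw [← map_mul, Sb_Sa]; rfl

theorem k₀_comm (a : ℂ) (x : QQ) : Commute (k₀ a) x := by
  obtain ⟨T, rfl⟩ := qm_surj x
  have h := Algebra.commutes a T
  have h2 := congrArg qm h
  rw [map_mul, map_mul] at h2
  exact h2

/-- evaluation of the inner variable -/
def f₁ (t : ℝ) : ℂ[X] →+* QQ := eval₂RingHom' k₀ (qm (Sb t)) (fun a => k₀_comm a _)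

theorem f₁_apply (t : ℝ) (p : ℂ[X]) : f₁ t p = eval₂ k₀ (qm (Sb t)) p := rfl

theorem f₁_comm (t : ℝ) (p : ℂ[X]) : Commute (f₁ t p) (qm (Sa t)) := by
  induction p using Polynomial.induction_on' with
  | add p q hp hq => rw [map_add]; exact hp.add_left hq
  | monomial n a =>
    rw [f₁_apply, eval₂_monomial]
    refine (k₀_comm a _).mul_left (Commute.pow_left ?_ n)
    change qm (Sb t) * qm (Sa t) = qm (Sa t) * qm (Sb t)
    rw [qm_Sa_Sb, qm_Sb_Sa]

/-- evaluation of the polynomials in two variables -/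
def eta (t : ℝ) : ℂ[X][X] →+* QQ := eval₂RingHom' (f₁ t) (qm (Sa t)) (f₁_comm t)

theorem eta_X (t : ℝ) : eta t X = qm (Sa t) := by
  change eval₂ (f₁ t) (qm (Sa t)) X = _
  rw [eval₂_X]

theorem eta_C (t : ℝ) (p : ℂ[X]) : eta t (C p) = f₁ t p := by
  change eval₂ (f₁ t) (qm (Sa t)) (C p) = _
  rw [eval₂_C]

theorem eta_CX (t : ℝ) : eta t (C X) = qm (Sb t) := by
  rw [eta_C, f₁_apply, eval₂_X]

theorem eta_cc (t : ℝ) (a : ℂ) : eta t (cc ℂ a) = k₀ a := by
  rw [cc_apply, eta_C, f₁_apply, eval₂_C]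

/-- the lift of the evaluation to the operators -/
def GG (t : ℝ) (p : ℂ[X][X]) : BB :=
  p.sum fun k q => aeval (Sb t) q * Sa t ^ k

theorem eta_eq_qm (t : ℝ) (p : ℂ[X][X]) : eta t p = qm (GG t p) := by
  have h1 : eta t p = p.sum fun k q => f₁ t q * qm (Sa t) ^ k := by
    change eval₂ (f₁ t) (qm (Sa t)) p = _
    rw [eval₂_eq_sum]
  rw [h1, GG, Polynomial.sum, Polynomial.sum, map_sum]
  refine Finset.sum_congr rfl fun k _ => ?_
  rw [map_mul, map_pow]
  congr 1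
  rw [aeval_def, hom_eval₂, f₁_apply]
  rfl

theorem GG_cont (p : ℂ[X][X]) : Continuous fun t : ℝ => GG t p := by
  unfold GG Polynomial.sum
  refine continuous_finsetSum _ fun k _ => ?_
  have h1 : Continuous fun t : ℝ => Sb t := by
    unfold Sb; fun_prop
  have h2 : Continuous fun t : ℝ => Sa t := by
    unfold Sa; fun_prop
  exact (((p.coeff k).continuous_aeval).comp h1).mul (h2.pow k)

theorem GG_zero (p : ℂ[X][X]) : GG 0 p = algebraMap ℂ BB ((p.coeff 0).coeff 0) := by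
  unfold GG Polynomial.sum
  have h1 : Sb 0 = 0 := by simp [Sb]
  have h2 : Sa 0 = 0 := by simp [Sa]
  rw [h1, h2, Finset.sum_eq_single 0]
  · beta_reduce
    rw [pow_zero, mul_one, ← coeff_zero_eq_aeval_zero']
  · intro k _ hk
    beta_reduce
    rw [zero_pow hk, mul_zero]
  · intro h
    rw [notMem_support_iff.1 h]; simp

theorem eta_unit {p : ℂ[X][X]} {i j : ℕ} (h : (p.coeff i).coeff j ≠ 0)
    (h0 : ∀ k l, (k < i ∨ l < j) → (p.coeff k).coeff l = 0) :
    ∃ t : ℝ, 0 < t ∧ IsUnit (eta t p) := by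
  obtain ⟨p₁, hp₁⟩ : X ^ i ∣ p := by
    rw [X_pow_dvd_iff]
    intro d hd
    ext l
    rw [h0 d l (Or.inl hd), coeff_zero]
  have h1 : ∀ k, p₁.coeff k = p.coeff (k + i) := by
    intro k
    rw [hp₁, coeff_X_pow_mul]
  obtain ⟨p₂, hp₂⟩ : C (X ^ j) ∣ p₁ := by
    rw [C_dvd_iff_dvd_coeff]
    intro k
    rw [h1, X_pow_dvd_iff]
    intro d hd
    exact h0 _ d (Or.inr hd)
  have h2 : (p₂.coeff 0).coeff 0 ≠ 0 := by
    have h3 : (p₁.coeff 0).coeff j = (p₂.coeff 0).coeff 0 := by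
      rw [hp₂, coeff_C_mul, coeff_X_pow_mul', if_pos le_rfl, Nat.sub_self]
    rw [← h3, h1, zero_add]
    exact h
  have h3 : IsOpen {t : ℝ | IsUnit (GG t p₂)} := Units.isOpen.preimage (GG_cont p₂)
  have h4 : (0 : ℝ) ∈ {t : ℝ | IsUnit (GG t p₂)} := by
    change IsUnit (GG 0 p₂)
    rw [GG_zero]
    exact (IsUnit.mk0 _ h2).map _
  obtain ⟨r, hr, hr2⟩ := Metric.isOpen_iff.1 h3 0 h4
  refine ⟨r / 2, by positivity, ?_⟩
  have h5 : IsUnit (GG (r / 2) p₂) := by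
    apply hr2
    rw [Metric.mem_ball, dist_zero_right, Real.norm_of_nonneg (by positivity)]
    linarith
  have hr0 : (((r / 2 : ℝ) : ℂ) * ((r / 2 : ℝ) : ℂ)) ≠ 0 := by
    have : ((r / 2 : ℝ) : ℂ) ≠ 0 := by
      rw [Complex.ofReal_ne_zero]; positivity
    exact mul_ne_zero this this
  have hu : IsUnit (k₀ (((r / 2 : ℝ) : ℂ) * ((r / 2 : ℝ) : ℂ))) := (IsUnit.mk0 _ hr0).map k₀
  have hc : Commute (qm (Sa (r / 2))) (qm (Sb (r / 2))) := by
    change _ * _ = _ * _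
    rw [qm_Sa_Sb, qm_Sb_Sa]
  have ha : IsUnit (qm (Sa (r / 2))) ∧ IsUnit (qm (Sb (r / 2))) := by
    rw [← hc.isUnit_mul_iff, qm_Sa_Sb]
    exact hu
  rw [hp₁, hp₂, map_mul, map_mul, map_pow, eta_X, map_pow, map_pow, eta_CX, eta_eq_qm]
  exact (ha.1.pow i).mul ((ha.2.pow j).mul (h5.map qm))

/-- left invertible and not right invertible -/
def LR (y : BB) : Prop := (∃ z, z * y = 1) ∧ ¬ ∃ z, y * z = 1

variable {κ : Type} [Fintype κ] [DecidableEq κ]

/-- The matrix `A` is good at `y`. -/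
def Good (A : Matrix κ κ Lam) (y : BB) : Prop :=
  ∃ (n : ℕ) (P Q : Matrix (Fin (n + 1)) (Fin (n + 1)) ℂ[X][X])
    (Θ : Matrix (Fin (n + 1)) (Fin (n + 1)) ℂ[X][X] →+* QQ), Θ P = qm y ∧ Θ Q = qm (star y) ∧
    IsUnit (Θ (dt A P Q • 1))

theorem star_k (a : ℂ) : star (algebraMap ℂ BB a) = algebraMap ℂ BB (star a) := by
  rw [Algebra.algebraMap_eq_smul_one, Algebra.algebraMap_eq_smul_one, star_smul, star_one]

section

variable {n : ℕ}

/-- the diagonal matrix with the multiple of the shift in one place -/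
def dg (n : ℕ) (x : BB) : Matrix (Fin (n + 1)) (Fin (n + 1)) BB :=
  Matrix.diagonal fun i => if i = 0 then x else 1

theorem dg_mul (x y : BB) : dg n x * dg n y = dg n (x * y) := by
  rw [dg, dg, Matrix.diagonal_mul_diagonal, dg]
  congr 1
  funext i
  by_cases h : i = 0 <;> simp [h]

theorem dg_one : dg n 1 = 1 := by simp [dg]

theorem dg_star (x : BB) : (dg n x).conjTranspose = dg n (star x) := by
  rw [dg, Matrix.diagonal_conjTranspose, dg]
  congr 1
  funext i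
  by_cases h : i = 0 <;> simp [h]

theorem El_eta (t : ℝ) (p : ℂ[X][X]) (T : BB) (h : eta t p = qm T) :
    (El (0 : Fin (n + 1)) p).map (eta t) = (dg n T).map qm := by
  rw [El, Matrix.diagonal_map (map_zero _), dg, Matrix.diagonal_map (map_zero _)]
  congr 1
  funext i
  by_cases hi : i = 0 <;> simp [hi, h]

theorem cc_eta (t : ℝ) (U : Matrix (Fin (n + 1)) (Fin (n + 1)) ℂ) :
    (U.map (cc ℂ)).map (eta t) = (U.map (algebraMap ℂ BB)).map qm := by
  ext1 i j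
  exact eta_cc t _

theorem unit_aux (t : ℝ) (d : ℂ[X][X]) (hu : IsUnit (eta t d)) :
    IsUnit ((eta t).mapMatrix (d • (1 : Matrix (Fin (n + 1)) (Fin (n + 1)) ℂ[X][X]))) := by
  obtain ⟨u, hu⟩ := hu
  have h2 : (eta t).mapMatrix (d • (1 : Matrix (Fin (n + 1)) (Fin (n + 1)) ℂ[X][X])) =
      Matrix.diagonal (fun _ => (u : QQ)) := by
    rw [RingHom.mapMatrix_apply, Matrix.smul_one_eq_diagonal,
      Matrix.diagonal_map (map_zero _), hu]
  rw [h2]
  exact ⟨⟨Matrix.diagonal (fun _ => (u : QQ)), Matrix.diagonal (fun _ => ((u⁻¹ : QQˣ) : QQ)),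
    by rw [Matrix.diagonal_mul_diagonal]; simp, by rw [Matrix.diagonal_mul_diagonal]; simp⟩, rfl⟩

theorem exists_good {A : Matrix κ κ Lam} (h : Gd A) : ∃ y : BB, LR y ∧ Good A y := by
  obtain ⟨n, U₁, U₂, i, j, hU₁, hU₂, hij, h0⟩ := exists_order h
  obtain ⟨t, ht, hu⟩ := eta_unit hij h0
  let V₁ : Matrix (Fin (n + 1)) (Fin (n + 1)) BB := U₁.map (algebraMap ℂ BB)
  let V₂ : Matrix (Fin (n + 1)) (Fin (n + 1)) BB := U₂.map (algebraMap ℂ BB)
  let V₁' : Matrix (Fin (n + 1)) (Fin (n + 1)) BB := (U₁⁻¹).map (algebraMap ℂ BB)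
  let V₂' : Matrix (Fin (n + 1)) (Fin (n + 1)) BB := (U₂⁻¹).map (algebraMap ℂ BB)
  have hm : ∀ M N : Matrix (Fin (n + 1)) (Fin (n + 1)) ℂ, M * N = 1 →
      M.map (algebraMap ℂ BB) * N.map (algebraMap ℂ BB) = 1 := by
    intro M N hMN
    rw [← Matrix.map_mul, hMN]
    exact Matrix.map_one _ (map_zero _) (map_one _)
  have hV₁ : V₁' * V₁ = 1 := hm _ _ (Matrix.nonsing_inv_mul _ (isUnit_iff_ne_zero.2 hU₁))
  have hV₂ : V₂' * V₂ = 1 := hm _ _ (Matrix.nonsing_inv_mul _ (isUnit_iff_ne_zero.2 hU₂))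
  have hV₁r : V₁ * V₁' = 1 := hm _ _ (Matrix.mul_nonsing_inv _ (isUnit_iff_ne_zero.2 hU₁))
  have hV₂r : V₂ * V₂' = 1 := hm _ _ (Matrix.mul_nonsing_inv _ (isUnit_iff_ne_zero.2 hU₂))
  have ht0 : (t : ℂ) ≠ 0 := by rw [Complex.ofReal_ne_zero]; exact ht.ne'
  let Y := V₁ * dg n (Sa t) * V₂
  let y := Psi (n + 1) Y
  let Z := V₂' * dg n (((t : ℂ) * t)⁻¹ • Sb t) * V₁'
  have hsb : ((t : ℂ) * t)⁻¹ • Sb t * Sa t = 1 := by
    rw [smul_mul_assoc, Sb_Sa, Algebra.algebraMap_eq_smul_one, smul_smul,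
      inv_mul_cancel₀ (mul_ne_zero ht0 ht0), one_smul]
  have hZY : Z * Y = 1 := by
    calc Z * Y = V₂' * dg n (((t : ℂ) * t)⁻¹ • Sb t) * (V₁' * V₁) * dg n (Sa t) * V₂ := by
          simp only [Z, Y, mul_assoc]
      _ = V₂' * (dg n (((t : ℂ) * t)⁻¹ • Sb t) * dg n (Sa t)) * V₂ := by
          rw [hV₁]; simp only [mul_assoc, one_mul]
      _ = 1 := by rw [dg_mul, hsb, dg_one, mul_one, hV₂]
  have hYZ : Y * Z ≠ 1 := by
    intro h1
    have h2 : dg n (Sa t) * dg n (((t : ℂ) * t)⁻¹ • Sb t) = 1 := by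
      calc dg n (Sa t) * dg n (((t : ℂ) * t)⁻¹ • Sb t)
          = (V₁' * V₁) * dg n (Sa t) * (V₂ * V₂') * dg n (((t : ℂ) * t)⁻¹ • Sb t) *
            (V₁' * V₁) := by rw [hV₁, hV₂r]; simp only [one_mul, mul_one]
        _ = V₁' * (Y * Z) * V₁ := by simp only [Z, Y, mul_assoc]
        _ = 1 := by rw [h1, mul_one, hV₁]
    rw [dg_mul] at h2
    have h3 := congrFun (congrFun h2 0) 0
    rw [dg, Matrix.diagonal_apply_eq, if_pos rfl, Matrix.one_apply_eq, mul_smul_comm, Sa, Sb,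
      smul_mul_smul_comm, smul_smul, inv_mul_cancel₀ (mul_ne_zero ht0 ht0), one_smul] at h3
    exact SS_ne h3
  have hLR : LR y := by
    refine ⟨⟨Psi (n + 1) Z, ?_⟩, ?_⟩
    · rw [← map_mul, hZY, map_one]
    · rintro ⟨z, hz⟩
      have h1 : Psi (n + 1) Z * y = 1 := by rw [← map_mul, hZY, map_one]
      have h2 : z = Psi (n + 1) Z := by
        calc z = (Psi (n + 1) Z * y) * z := by rw [h1, one_mul]
          _ = Psi (n + 1) Z := by rw [mul_assoc, hz, mul_one]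
      rw [h2, ← map_mul] at hz
      exact hYZ (Psi_inj (by rw [hz, map_one]))
  refine ⟨y, hLR, n, U₁.map (cc ℂ) * El 0 X * U₂.map (cc ℂ),
    U₂.conjTranspose.map (cc ℂ) * El 0 (C X : ℂ[X][X]) * U₁.conjTranspose.map (cc ℂ),
    (Psq (n + 1)).comp (eta t).mapMatrix, ?_, ?_, ?_⟩
  · rw [RingHom.comp_apply, RingHom.mapMatrix_apply, Matrix.map_mul, Matrix.map_mul, cc_eta, cc_eta,
      El_eta t X _ (eta_X t), ← Matrix.map_mul, ← Matrix.map_mul, Psq_map]
  · have hst : star y = Psi (n + 1) (U₂.conjTranspose.map (algebraMap ℂ BB) * dg n (Sb t) *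
        U₁.conjTranspose.map (algebraMap ℂ BB)) := by
      rw [← Psi_star, Matrix.conjTranspose_mul, Matrix.conjTranspose_mul, dg_star, star_Sa,
        mul_assoc]
      congr 2
      · ext1 a b
        simp only [V₂, Matrix.conjTranspose_apply, Matrix.map_apply, star_k]
      · congr 1
        ext1 a b
        simp only [V₁, Matrix.conjTranspose_apply, Matrix.map_apply, star_k]
    rw [hst, RingHom.comp_apply, RingHom.mapMatrix_apply, Matrix.map_mul, Matrix.map_mul, cc_eta,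
      cc_eta, El_eta t (C X : ℂ[X][X]) _ (eta_CX t), ← Matrix.map_mul, ← Matrix.map_mul, Psq_map]
  · exact (unit_aux t _ hu).map (Psq (n + 1))

end

end

end Pool.Agent.W408.SR
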