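import Pool.Agent.W408.SR.Ev

set_option autoImplicit false

/-!
# Orders of vanishing of determinants
-/

namespace Pool.Agent.W408.SR

open Polynomial

noncomputable section

/-- the diagonal matrix with the entry `a` at `i₀` and entries `1` elsewhere -/
def El {R : Type*} [CommRing R] {ι : Type*} [DecidableEq ι] (i₀ : ι) (a : R) : Matrix ι ι R :=
  Matrix.diagonal (fun i => if i = i₀ then a else 1)

section El
variable {R S : Type*} [CommRing R] [CommRing S] {ι ι' : Type*} [DecidableEq ι] [DecidableEq ι']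

theorem El_map (f : R →+* S) (i₀ : ι) (a : R) : (El i₀ a).map f = El i₀ (f a) := by
  rw [El, Matrix.diagonal_map (map_zero f), El]
  congr 1
  funext i
  by_cases h : i = i₀ <;> simp [h]

theorem El_reindex (e : ι ≃ ι') (i₀ : ι) (a : R) :
    Matrix.reindex e e (El i₀ a) = El (e i₀) a := by
  ext i j
  simp only [El, Matrix.reindex_apply, Matrix.submatrix_apply, Matrix.diagonal_apply]
  by_cases h : i = j
  · subst h
    by_cases h2 : e.symm i = i₀
    · simp [← h2]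
    · have h3 : i ≠ e i₀ := fun h4 => h2 (by rw [h4]; simp)
      simp [h2, h3]
  · simp [h]

theorem El_inl (i₀ : ι) (a : R) :
    Matrix.fromBlocks (El i₀ a) 0 0 (1 : Matrix ι' ι' R) = El (Sum.inl i₀) a := by
  ext i j
  rcases i with i | i <;> rcases j with j | j <;>
    simp [El, Matrix.diagonal_apply, Matrix.one_apply]

theorem El_inr (i₀ : ι') (a : R) :
    Matrix.fromBlocks (1 : Matrix ι ι R) 0 0 (El i₀ a) = El (Sum.inr i₀) a := by
  ext i j
  rcases i with i | i <;> rcases j with j | j <;>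
    simp [El, Matrix.diagonal_apply, Matrix.one_apply]

theorem El_one (i₀ : ι) : El i₀ (1 : R) = 1 := by
  simp [El]

/-- the permutation matrix of a transposition -/
def Sw (R : Type*) [CommRing R] {ι : Type*} [DecidableEq ι] (i j : ι) : Matrix ι ι R :=
  (Equiv.swap i j).toPEquiv.toMatrix

theorem Sw_map (f : R →+* S) (i j : ι) : (Sw R i j).map f = Sw S i j := by
  ext k l
  simp only [Sw, Matrix.map_apply, PEquiv.toMatrix_apply]
  split_ifs <;> simp

theorem El_swap [Fintype ι] (i₀ j₀ : ι) (a : R) :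
    El j₀ a = Sw R i₀ j₀ * El i₀ a * Sw R i₀ j₀ := by
  ext k l
  rw [Sw, PEquiv.mul_toMatrix_toPEquiv, PEquiv.toMatrix_toPEquiv_mul]
  simp only [El, Matrix.submatrix_apply, Matrix.diagonal_apply, id, Equiv.symm_swap]
  by_cases h : k = l
  · subst h
    simp only [if_true]
    by_cases h2 : k = j₀
    · subst h2; simp
    · have : Equiv.swap i₀ j₀ k ≠ i₀ := fun h3 => h2 (by
        have := congrArg (Equiv.swap i₀ j₀) h3
        simpa using this)
      simp [h2, this]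
  · have : Equiv.swap i₀ j₀ k ≠ Equiv.swap i₀ j₀ l := fun h3 => h ((Equiv.swap i₀ j₀).injective h3)
    simp [h, this]

end El

variable {κ : Type} [Fintype κ] [DecidableEq κ]

/-- the constants in the ring of polynomials in two variables -/
def cc (R : Type*) [CommRing R] : R →+* R[X][X] := C.comp C

@[simp] theorem cc_apply {R : Type*} [CommRing R] (r : R) : cc R r = C (C r) := rfl

/-- The two-variable polynomial `dt A (B₁ E(a) B₂, B₃ E(b) B₄)`; here `a` is the outer variable and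
`b` is the inner one. -/
def dd {R : Type*} [CommRing R] {ι : Type*} [Fintype ι] [DecidableEq ι] (A : Matrix κ κ Lam)
    (i₀ : ι) (B₁ B₂ B₃ B₄ : Matrix ι ι R) : R[X][X] :=
  dt A ((B₁.map (cc R)) * El i₀ X * (B₂.map (cc R)))
    ((B₃.map (cc R)) * El i₀ (C X : R[X][X]) * (B₄.map (cc R)))

theorem dd_map {R S : Type*} [CommRing R] [CommRing S] {ι : Type*} [Fintype ι] [DecidableEq ι]
    (f : R →+* S) (A : Matrix κ κ Lam) (i₀ : ι) (B₁ B₂ B₃ B₄ : Matrix ι ι R) :
    (dd A i₀ B₁ B₂ B₃ B₄).map (mapRingHom f) =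
      dd A i₀ (B₁.map f) (B₂.map f) (B₃.map f) (B₄.map f) := by
  have h := dt_map (mapRingHom (mapRingHom f)) A
    ((B₁.map (cc R)) * El i₀ X * (B₂.map (cc R)))
    ((B₃.map (cc R)) * El i₀ (C X : R[X][X]) * (B₄.map (cc R)))
  rw [dd, dd]
  refine h.trans ?_
  have hc : ∀ B : Matrix ι ι R, (B.map (cc R)).map (mapRingHom (mapRingHom f)) =
      (B.map f).map (cc S) := by
    intro B
    ext i j
    simp
  rw [Matrix.map_mul, Matrix.map_mul, Matrix.map_mul, Matrix.map_mul, El_map, El_map, hc, hc, hc,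
    hc]
  simp

/-- `i` occurs as an exponent on the side of the first argument. -/
def PrA (A : Matrix κ κ Lam) (i : ℕ) : Prop :=
  ∃ (ι : Type) (_ : Fintype ι) (_ : DecidableEq ι) (i₀ : ι) (B₁ B₂ Q : Matrix ι ι ℂ),
    (dt A ((B₁.map C) * El i₀ X * (B₂.map C)) (Q.map C)).coeff i ≠ 0

/-- `j` occurs as an exponent on the side of the second argument. -/
def PrB (A : Matrix κ κ Lam) (j : ℕ) : Prop :=
  ∃ (ι : Type) (_ : Fintype ι) (_ : DecidableEq ι) (i₀ : ι) (B₃ B₄ P : Matrix ι ι ℂ),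
    (dt A (P.map C) ((B₃.map C) * El i₀ X * (B₄.map C))).coeff j ≠ 0

/-- The determinant does not vanish identically for some size. -/
def Gd (A : Matrix κ κ Lam) : Prop :=
  ∃ (ι : Type) (_ : Fintype ι) (_ : DecidableEq ι) (_ : ι) (P Q : Matrix ι ι ℂ), dt A P Q ≠ 0

theorem exists_coeff_of_eval {p : ℂ[X]} {z : ℂ} (h : p.eval z ≠ 0) : ∃ i, p.coeff i ≠ 0 := by
  by_contra hc
  push Not at hc
  have : p = 0 := by ext n; simpa using hc n
  exact h (by simp [this])

theorem exists_PrA {A : Matrix κ κ Lam} (h : Gd A) : ∃ i, PrA A i := by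
  obtain ⟨ι, hf, hd, i₀, P, Q, hne⟩ := h
  have h1 : (dt A ((P.map C) * El i₀ X * ((1 : Matrix ι ι ℂ).map C)) (Q.map C)).eval 1 ≠ 0 := by
    have := dt_map (evalRingHom (1 : ℂ)) A ((P.map C) * El i₀ X * ((1 : Matrix ι ι ℂ).map C))
      (Q.map C)
    have e1 : ((P.map C) * El i₀ X * ((1 : Matrix ι ι ℂ).map C)).map (evalRingHom (1 : ℂ)) = P := by
      rw [Matrix.map_mul, Matrix.map_mul, El_map]
      ext i j
      simp [El_one, Matrix.map_map]
    have e2 : (Q.map C).map (evalRingHom (1 : ℂ)) = Q := by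
      ext i j; simp
    rw [e1, e2] at this
    rw [← coe_evalRingHom, this]
    exact hne
  obtain ⟨i, hi⟩ := exists_coeff_of_eval h1
  exact ⟨i, ι, hf, hd, i₀, P, 1, Q, hi⟩

theorem exists_PrB {A : Matrix κ κ Lam} (h : Gd A) : ∃ i, PrB A i := by
  obtain ⟨ι, hf, hd, i₀, P, Q, hne⟩ := h
  have h1 : (dt A (P.map C) ((Q.map C) * El i₀ X * ((1 : Matrix ι ι ℂ).map C))).eval 1 ≠ 0 := by
    have := dt_map (evalRingHom (1 : ℂ)) A (P.map C)
      ((Q.map C) * El i₀ X * ((1 : Matrix ι ι ℂ).map C))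
    have e1 : ((Q.map C) * El i₀ X * ((1 : Matrix ι ι ℂ).map C)).map (evalRingHom (1 : ℂ)) = Q := by
      rw [Matrix.map_mul, Matrix.map_mul, El_map]
      ext i j
      simp [El_one, Matrix.map_map]
    have e2 : (P.map C).map (evalRingHom (1 : ℂ)) = P := by
      ext i j; simp
    rw [e1, e2] at this
    rw [← coe_evalRingHom, this]
    exact hne
  obtain ⟨i, hi⟩ := exists_coeff_of_eval h1
  exact ⟨i, ι, hf, hd, i₀, Q, 1, P, hi⟩

theorem PrA_of_dd {A : Matrix κ κ Lam} {ι : Type} [Fintype ι] [DecidableEq ι] (i₀ : ι)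
    (B₁ B₂ B₃ B₄ : Matrix ι ι ℂ) {k l : ℕ}
    (h : ((dd A i₀ B₁ B₂ B₃ B₄).coeff k).coeff l ≠ 0) : PrA A k := by
  have hne : (dd A i₀ B₁ B₂ B₃ B₄).coeff k ≠ 0 := fun h0 => h (by simp [h0])
  obtain ⟨b, hb⟩ : ∃ b, ((dd A i₀ B₁ B₂ B₃ B₄).coeff k).eval b ≠ 0 := by
    by_contra hc
    push Not at hc
    exact hne (Polynomial.funext (by simpa using hc))
  refine ⟨ι, inferInstance, inferInstance, i₀, B₁, B₂, B₃ * El i₀ b * B₄, ?_⟩
  have h1 := dt_map (mapRingHom (evalRingHom b)) A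
    ((B₁.map (cc ℂ)) * El i₀ X * (B₂.map (cc ℂ)))
    ((B₃.map (cc ℂ)) * El i₀ (C X : ℂ[X][X]) * (B₄.map (cc ℂ)))
  have e1 : ((B₁.map (cc ℂ)) * El i₀ X * (B₂.map (cc ℂ))).map
      (mapRingHom (evalRingHom b)) = B₁.map C * El i₀ X * B₂.map C := by
    rw [Matrix.map_mul, Matrix.map_mul, El_map]
    congr 1
    · congr 1
      · ext i j; simp
      · simp
    · ext i j; simp
  have e2 : ((B₃.map (cc ℂ)) * El i₀ (C X : ℂ[X][X]) * (B₄.map (cc ℂ))).map
      (mapRingHom (evalRingHom b)) = (B₃ * El i₀ b * B₄).map C := by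
    rw [Matrix.map_mul, Matrix.map_mul, Matrix.map_mul, Matrix.map_mul, El_map, El_map]
    congr 1
    · congr 1
      · ext i j; simp
      · simp
    · ext i j; simp
  rw [e1, e2] at h1
  rw [← h1]
  simpa [dd, coeff_map] using hb

theorem PrB_of_dd {A : Matrix κ κ Lam} {ι : Type} [Fintype ι] [DecidableEq ι] (i₀ : ι)
    (B₁ B₂ B₃ B₄ : Matrix ι ι ℂ) {k l : ℕ}
    (h : ((dd A i₀ B₁ B₂ B₃ B₄).coeff k).coeff l ≠ 0) : PrB A l := by
  set d := dd A i₀ B₁ B₂ B₃ B₄ with hd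
  -- the polynomial in the outer variable formed by the coefficients of index `l`
  let q : ℂ[X] := ∑ m ∈ d.support, monomial m ((d.coeff m).coeff l)
  have hq : ∀ m, q.coeff m = (d.coeff m).coeff l := by
    intro m
    simp only [q, finsetSum_coeff, coeff_monomial]
    rw [Finset.sum_ite_eq' d.support m]
    split_ifs with hm
    · rfl
    · rw [notMem_support_iff.1 hm]; simp
  have hne : q ≠ 0 := fun h0 => h (by rw [← hq, h0]; simp)
  obtain ⟨a, ha⟩ : ∃ a, q.eval a ≠ 0 := by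
    by_contra hc
    push Not at hc
    exact hne (Polynomial.funext (by simpa using hc))
  refine ⟨ι, inferInstance, inferInstance, i₀, B₃, B₄, B₁ * El i₀ a * B₂, ?_⟩
  have h1 := dt_map (evalRingHom (C a : ℂ[X])) A
    ((B₁.map (cc ℂ)) * El i₀ X * (B₂.map (cc ℂ)))
    ((B₃.map (cc ℂ)) * El i₀ (C X : ℂ[X][X]) * (B₄.map (cc ℂ)))
  have e1 : ((B₁.map (cc ℂ)) * El i₀ X * (B₂.map (cc ℂ))).map
      (evalRingHom (C a : ℂ[X])) = (B₁ * El i₀ a * B₂).map C := by
    rw [Matrix.map_mul, Matrix.map_mul, Matrix.map_mul, Matrix.map_mul, El_map, El_map]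
    congr 1
    · congr 1
      · ext i j; simp
      · simp
    · ext i j; simp
  have e2 : ((B₃.map (cc ℂ)) * El i₀ (C X : ℂ[X][X]) * (B₄.map (cc ℂ))).map
      (evalRingHom (C a : ℂ[X])) = B₃.map C * El i₀ X * B₄.map C := by
    rw [Matrix.map_mul, Matrix.map_mul, El_map]
    congr 1
    · congr 1
      · ext i j; simp
      · simp
    · ext i j; simp
  rw [e1, e2] at h1
  rw [← h1]
  change (evalRingHom (C a) d).coeff l ≠ 0
  have h2 : (evalRingHom (C a) d).coeff l = q.eval a := by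
    rw [coe_evalRingHom, eval_eq_sum, Polynomial.sum, finsetSum_coeff, eval_finsetSum]
    refine Finset.sum_congr rfl fun m _ => ?_
    rw [← C_pow, coeff_mul_C, eval_monomial]
  rw [h2]
  exact ha

section blocks
set_option linter.unusedSectionVars false
variable {R S : Type*} [CommRing R] [CommRing S] {ι ι' : Type*} [Fintype ι] [DecidableEq ι]
  [Fintype ι'] [DecidableEq ι']

theorem bd_mul3 (A₁ A₂ A₃ : Matrix ι ι R) (B₁ B₂ B₃ : Matrix ι' ι' R) :
    Matrix.fromBlocks A₁ 0 0 B₁ * Matrix.fromBlocks A₂ 0 0 B₂ * Matrix.fromBlocks A₃ 0 0 B₃ =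
      Matrix.fromBlocks (A₁ * A₂ * A₃) 0 0 (B₁ * B₂ * B₃) := by
  rw [Matrix.fromBlocks_multiply, Matrix.fromBlocks_multiply]
  simp

theorem bd_map (f : R →+* S) (A : Matrix ι ι R) (B : Matrix ι' ι' R) :
    (Matrix.fromBlocks A 0 0 B).map f = Matrix.fromBlocks (A.map f) 0 0 (B.map f) := by
  rw [Matrix.fromBlocks_map, Matrix.map_zero _ (map_zero f), Matrix.map_zero _ (map_zero f)]

theorem one_map' (f : R →+* S) : (1 : Matrix ι ι R).map f = 1 :=
  Matrix.map_one f (map_zero f) (map_one f)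

theorem map_cc₁ (B : Matrix ι ι R) :
    (B.map (C : R →+* R[X])).map (mapRingHom (C : R →+* R[X])) = B.map (cc R) := by
  ext i j
  simp [cc]

theorem map_cc₂ (B : Matrix ι ι R) :
    (B.map (C : R →+* R[X])).map (C : R[X] →+* R[X][X]) = B.map (cc R) := rfl

theorem sand₁ (B₁ B₂ : Matrix ι ι R) (i₀ : ι) :
    ((B₁.map (C : R →+* R[X])) * El i₀ X * (B₂.map (C : R →+* R[X]))).map
      (mapRingHom (C : R →+* R[X])) = B₁.map (cc R) * El i₀ X * B₂.map (cc R) := by
  rw [Matrix.map_mul, Matrix.map_mul, El_map, map_cc₁, map_cc₁]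
  simp

theorem sand₂ (B₁ B₂ : Matrix ι ι R) (i₀ : ι) :
    ((B₁.map (C : R →+* R[X])) * El i₀ X * (B₂.map (C : R →+* R[X]))).map
      (C : R[X] →+* R[X][X]) = B₁.map (cc R) * El i₀ (C X : R[X][X]) * B₂.map (cc R) := by
  rw [Matrix.map_mul, Matrix.map_mul, El_map, map_cc₂, map_cc₂]

theorem reindex_sand {ι'' : Type*} [Fintype ι''] [DecidableEq ι''] (e : ι ≃ ι'')
    (M N : Matrix ι ι R) (a : S) (k₀ : ι) (f : R →+* S) :
    (Matrix.reindex e e M).map f * El (e k₀) a * (Matrix.reindex e e N).map f =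
      Matrix.reindex e e (M.map f * El k₀ a * N.map f) := by
  rw [← El_reindex e k₀ a]
  have h1 : (Matrix.reindex e e M).map f = Matrix.reindexRingEquiv S e (M.map f) := rfl
  have h2 : (Matrix.reindex e e N).map f = Matrix.reindexRingEquiv S e (N.map f) := rfl
  have h3 : ∀ Z : Matrix ι ι S, Matrix.reindex e e Z = Matrix.reindexRingEquiv S e Z := fun _ => rfl
  rw [h1, h2, h3, h3, map_mul, map_mul]

theorem dd_reindex {κ : Type} [Fintype κ] [DecidableEq κ] (A : Matrix κ κ Lam) (e : ι ≃ ι')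
    (k₀ : ι) (M₁ M₂ M₃ M₄ : Matrix ι ι R) :
    dd A (e k₀) (Matrix.reindex e e M₁) (Matrix.reindex e e M₂) (Matrix.reindex e e M₃)
      (Matrix.reindex e e M₄) = dd A k₀ M₁ M₂ M₃ M₄ := by
  rw [dd, dd, reindex_sand, reindex_sand, dt_reindex]

theorem dd_split {κ : Type} [Fintype κ] [DecidableEq κ] (A : Matrix κ κ Lam)
    (i₀ : ι) (j₀ : ι') (B₁ B₂ Q : Matrix ι ι R) (B₃ B₄ P : Matrix ι' ι' R) :
    dd A (Sum.inl i₀) (Matrix.fromBlocks B₁ 0 0 P) (Matrix.fromBlocks B₂ 0 0 1)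
      (Matrix.fromBlocks Q 0 0 B₃ * Sw R (Sum.inl i₀) (Sum.inr j₀))
      (Sw R (Sum.inl i₀) (Sum.inr j₀) * Matrix.fromBlocks 1 0 0 B₄) =
    (dt A ((B₁.map C) * El i₀ X * (B₂.map C)) (Q.map C)).map C *
      C (dt A (P.map C) ((B₃.map C) * El j₀ X * (B₄.map C))) := by
  have eP : ((Matrix.fromBlocks B₁ 0 0 P).map (cc R)) * El (Sum.inl i₀) X *
      ((Matrix.fromBlocks B₂ 0 0 1).map (cc R)) =
      Matrix.fromBlocks (((B₁.map C) * El i₀ X * (B₂.map C)).map (mapRingHom C)) 0 0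
        ((P.map C).map (C : R[X] →+* R[X][X])) := by
    rw [← El_inl, bd_map, bd_map, bd_mul3, sand₁, map_cc₂, one_map', mul_one, mul_one]
  have eQ : ((Matrix.fromBlocks Q 0 0 B₃ * Sw R (Sum.inl i₀) (Sum.inr j₀)).map (cc R)) *
      El (Sum.inl i₀) (C X : R[X][X]) *
      ((Sw R (Sum.inl i₀) (Sum.inr j₀) * Matrix.fromBlocks 1 0 0 B₄).map (cc R)) =
      Matrix.fromBlocks ((Q.map C).map (mapRingHom C)) 0 0
        (((B₃.map C) * El j₀ X * (B₄.map C)).map (C : R[X] →+* R[X][X])) := by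
    rw [Matrix.map_mul, Matrix.map_mul, Sw_map]
    have h3 : (Matrix.fromBlocks Q 0 0 B₃).map (cc R) *
        Sw R[X][X] (Sum.inl i₀) (Sum.inr j₀) * El (Sum.inl i₀) (C X : R[X][X]) *
        (Sw R[X][X] (Sum.inl i₀) (Sum.inr j₀) * (Matrix.fromBlocks 1 0 0 B₄).map (cc R)) =
        (Matrix.fromBlocks Q 0 0 B₃).map (cc R) *
        El (Sum.inr j₀) (C X : R[X][X]) * (Matrix.fromBlocks 1 0 0 B₄).map (cc R) := by
      rw [El_swap (Sum.inl i₀) (Sum.inr j₀)]
      simp only [Matrix.mul_assoc]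
    rw [h3, ← El_inr, bd_map, bd_map, bd_mul3, sand₂, map_cc₁, one_map', mul_one, mul_one]
  rw [dd, eP, eQ, dt_blocks]
  congr 1
  · have := dt_map (mapRingHom C : R[X] →+* R[X][X]) A ((B₁.map C) * El i₀ X * (B₂.map C))
      (Q.map C)
    rw [← this]; rfl
  · have := dt_map (C : R[X] →+* R[X][X]) A (P.map C) ((B₃.map C) * El j₀ X * (B₄.map C))
    rw [← this]

end blocks

/-- The two orders are attained at the same time. -/
theorem exists_dd {A : Matrix κ κ Lam} {i j : ℕ} (hi : PrA A i) (hj : PrB A j) :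
    ∃ (n : ℕ) (B₁ B₂ B₃ B₄ : Matrix (Fin (n + 1)) (Fin (n + 1)) ℂ),
      ((dd A 0 B₁ B₂ B₃ B₄).coeff i).coeff j ≠ 0 := by
  obtain ⟨ι₁, hf₁, hd₁, i₀, B₁, B₂, Q, h1⟩ := hi
  obtain ⟨ι₂, hf₂, hd₂, j₀, B₃, B₄, P, h2⟩ := hj
  obtain ⟨n, hn⟩ : ∃ n, Fintype.card (ι₁ ⊕ ι₂) = n + 1 :=
    Nat.exists_eq_succ_of_ne_zero (by
      haveI : Nonempty (ι₁ ⊕ ι₂) := ⟨Sum.inl i₀⟩
      exact Fintype.card_ne_zero)
  let e₀ : ι₁ ⊕ ι₂ ≃ Fin (n + 1) := Fintype.equivFinOfCardEq hn
  let e : ι₁ ⊕ ι₂ ≃ Fin (n + 1) := e₀.trans (Equiv.swap (e₀ (Sum.inl i₀)) 0)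
  have he : e (Sum.inl i₀) = 0 := by simp [e]
  have key := dd_split A i₀ j₀ B₁ B₂ Q B₃ B₄ P
  rw [← dd_reindex A e] at key
  rw [he] at key
  have key2 := congrArg (fun q : ℂ[X][X] => (q.coeff i).coeff j) key
  have key3 : (fun q : ℂ[X][X] => (q.coeff i).coeff j)
      ((dt A ((B₁.map C) * El i₀ X * (B₂.map C)) (Q.map C)).map C *
        C (dt A (P.map C) ((B₃.map C) * El j₀ X * (B₄.map C)))) =
      (dt A ((B₁.map C) * El i₀ X * (B₂.map C)) (Q.map C)).coeff i *
        (dt A (P.map C) ((B₃.map C) * El j₀ X * (B₄.map C))).coeff j := by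
    simp only [coeff_mul_C, coeff_map]
    rw [coeff_C_mul]
  have key4 := key2.trans key3
  exact ⟨n, _, _, _, _, fun h0 => mul_ne_zero h1 h2 (key4.symm.trans h0)⟩

/-- Evaluation of generic matrices. -/
theorem exists_real {A : Matrix κ κ Lam} {n i j : ℕ}
    (B₁ B₂ B₃ B₄ : Matrix (Fin (n + 1)) (Fin (n + 1)) ℂ)
    (h : ((dd A 0 B₁ B₂ B₃ B₄).coeff i).coeff j ≠ 0) :
    ∃ U₁ U₂ : Matrix (Fin (n + 1)) (Fin (n + 1)) ℂ, U₁.det ≠ 0 ∧ U₂.det ≠ 0 ∧
      ((dd A 0 U₁ U₂ U₂.conjTranspose U₁.conjTranspose).coeff i).coeff j ≠ 0 := by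
  classical
  let V := Fin 4 × Fin (n + 1) × Fin (n + 1)
  let Y : Fin 4 → Matrix (Fin (n + 1)) (Fin (n + 1)) (MvPolynomial V ℂ) := fun r =>
    Matrix.of fun a b => MvPolynomial.X (r, a, b)
  let I' : MvPolynomial V ℂ := MvPolynomial.C Complex.I
  let G₁ := Y 0 + I' • Y 1
  let G₂ := Y 2 + I' • Y 3
  let G₃ := (Y 2).transpose - I' • (Y 3).transpose
  let G₄ := (Y 0).transpose - I' • (Y 1).transpose
  let g₁ : MvPolynomial V ℂ := ((dd A 0 G₁ G₂ G₃ G₄).coeff i).coeff j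
  have hev : ∀ x : V → ℂ, MvPolynomial.eval x g₁ =
      ((dd A 0 (G₁.map (MvPolynomial.eval x)) (G₂.map (MvPolynomial.eval x))
        (G₃.map (MvPolynomial.eval x)) (G₄.map (MvPolynomial.eval x))).coeff i).coeff j := by
    intro x
    rw [← dd_map]
    simp [g₁, coeff_map]
  have hg₁ : g₁ ≠ 0 := by
    intro h0
    let x : V → ℂ := fun v => match v with
      | (0, a, b) => (B₁ a b + B₄ b a) / 2
      | (1, a, b) => (B₁ a b - B₄ b a) / (2 * Complex.I)
      | (2, a, b) => (B₂ a b + B₃ b a) / 2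
      | (3, a, b) => (B₂ a b - B₃ b a) / (2 * Complex.I)
    have h1 := hev x
    have e1 : G₁.map (MvPolynomial.eval x) = B₁ := by
      ext a b
      simp only [G₁, Y, I', Matrix.map_apply, Matrix.add_apply, Matrix.smul_apply, Matrix.of_apply,
        smul_eq_mul, map_add, map_mul, MvPolynomial.eval_X, MvPolynomial.eval_C, x]
      field_simp [Complex.I_ne_zero]
      ring
    have e2 : G₂.map (MvPolynomial.eval x) = B₂ := by
      ext a b
      simp only [G₂, Y, I', Matrix.map_apply, Matrix.add_apply, Matrix.smul_apply, Matrix.of_apply,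
        smul_eq_mul, map_add, map_mul, MvPolynomial.eval_X, MvPolynomial.eval_C, x]
      field_simp [Complex.I_ne_zero]
      ring
    have e3 : G₃.map (MvPolynomial.eval x) = B₃ := by
      ext a b
      simp only [G₃, Y, I', Matrix.map_apply, Matrix.sub_apply, Matrix.smul_apply, Matrix.of_apply,
        Matrix.transpose_apply,
        smul_eq_mul, map_sub, map_mul, MvPolynomial.eval_X, MvPolynomial.eval_C, x]
      field_simp [Complex.I_ne_zero]
      ring
    have e4 : G₄.map (MvPolynomial.eval x) = B₄ := by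
      ext a b
      simp only [G₄, Y, I', Matrix.map_apply, Matrix.sub_apply, Matrix.smul_apply, Matrix.of_apply,
        Matrix.transpose_apply,
        smul_eq_mul, map_sub, map_mul, MvPolynomial.eval_X, MvPolynomial.eval_C, x]
      field_simp [Complex.I_ne_zero]
      ring
    rw [e1, e2, e3, e4, h0, map_zero] at h1
    exact h h1.symm
  have hd₁ : G₁.det ≠ 0 := by
    intro h0
    have := congrArg (MvPolynomial.eval (fun v : V => if v.1 = 0 ∧ v.2.1 = v.2.2 then (1 : ℂ) else 0))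
      h0
    rw [RingHom.map_det, map_zero] at this
    have e : (MvPolynomial.eval (fun v : V => if v.1 = 0 ∧ v.2.1 = v.2.2 then (1 : ℂ) else 0)).mapMatrix
        G₁ = 1 := by
      ext a b
      simp [G₁, Y, I', Matrix.one_apply]
    rw [e, Matrix.det_one] at this
    exact one_ne_zero this
  have hd₂ : G₂.det ≠ 0 := by
    intro h0
    have := congrArg (MvPolynomial.eval (fun v : V => if v.1 = 2 ∧ v.2.1 = v.2.2 then (1 : ℂ) else 0))
      h0
    rw [RingHom.map_det, map_zero] at this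
    have e : (MvPolynomial.eval (fun v : V => if v.1 = 2 ∧ v.2.1 = v.2.2 then (1 : ℂ) else 0)).mapMatrix
        G₂ = 1 := by
      ext a b
      simp [G₂, Y, I', Matrix.one_apply]
    rw [e, Matrix.det_one] at this
    exact one_ne_zero this
  have hprod : g₁ * G₁.det * G₂.det ≠ 0 := mul_ne_zero (mul_ne_zero hg₁ hd₁) hd₂
  obtain ⟨x, hx, hxe⟩ : ∃ x ∈ Set.pi Set.univ (fun _ : V => Set.range (fun r : ℝ => (r : ℂ))),
      MvPolynomial.eval x (g₁ * G₁.det * G₂.det) ≠ 0 := by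
    by_contra hc
    push Not at hc
    apply hprod
    refine MvPolynomial.funext_set (fun _ : V => Set.range (fun r : ℝ => (r : ℂ))) (fun _ => ?_)
      (fun x hx => ?_)
    · exact Set.infinite_range_of_injective Complex.ofReal_injective
    · rw [hc x hx, map_zero]
  rw [map_mul, map_mul, RingHom.map_det, RingHom.map_det] at hxe
  have hx' : ∀ v, (starRingEnd ℂ) (x v) = x v := by
    intro v
    obtain ⟨r, hr⟩ := hx v (Set.mem_univ v)
    rw [← hr]
    exact Complex.conj_ofReal r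
  refine ⟨G₁.map (MvPolynomial.eval x), G₂.map (MvPolynomial.eval x), ?_, ?_, ?_⟩
  · exact fun h0 => hxe (by
      have : ((MvPolynomial.eval x).mapMatrix G₁).det = 0 := h0
      rw [this]; simp)
  · exact fun h0 => hxe (by
      have : ((MvPolynomial.eval x).mapMatrix G₂).det = 0 := h0
      rw [this]; simp)
  · have e3 : (G₂.map (MvPolynomial.eval x)).conjTranspose = G₃.map (MvPolynomial.eval x) := by
      ext a b
      simp [G₂, G₃, Y, I', Matrix.conjTranspose_apply, hx']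
      ring
    have e4 : (G₁.map (MvPolynomial.eval x)).conjTranspose = G₄.map (MvPolynomial.eval x) := by
      ext a b
      simp [G₁, G₄, Y, I', Matrix.conjTranspose_apply, hx']
      ring
    rw [e3, e4, ← hev]
    exact fun h0 => hxe (by rw [h0]; simp)

/-- The main statement of this file. -/
theorem exists_order {A : Matrix κ κ Lam} (h : Gd A) :
    ∃ (n : ℕ) (U₁ U₂ : Matrix (Fin (n + 1)) (Fin (n + 1)) ℂ) (i j : ℕ), U₁.det ≠ 0 ∧ U₂.det ≠ 0 ∧
      ((dd A 0 U₁ U₂ U₂.conjTranspose U₁.conjTranspose).coeff i).coeff j ≠ 0 ∧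
      ∀ k l, (k < i ∨ l < j) →
        ((dd A 0 U₁ U₂ U₂.conjTranspose U₁.conjTranspose).coeff k).coeff l = 0 := by
  classical
  have hA := exists_PrA h
  have hB := exists_PrB h
  obtain ⟨n, B₁, B₂, B₃, B₄, h1⟩ := exists_dd (Nat.find_spec hA) (Nat.find_spec hB)
  obtain ⟨U₁, U₂, hU₁, hU₂, h2⟩ := exists_real B₁ B₂ B₃ B₄ h1
  refine ⟨n, U₁, U₂, Nat.find hA, Nat.find hB, hU₁, hU₂, h2, ?_⟩
  intro k l hkl
  by_contra hne
  rcases hkl with hk | hl
  · exact Nat.find_min hA hk (PrA_of_dd 0 _ _ _ _ hne)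
  · exact Nat.find_min hB hl (PrB_of_dd 0 _ _ _ _ hne)

end

end Pool.Agent.W408.SR
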