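import Pool.Agent.W408.SR.Gth

set_option autoImplicit false

/-!
# Rational families of operators
-/

namespace Pool.Agent.W408.SR

open Polynomial

noncomputable section

section good
set_option linter.unusedSectionVars false
variable {κ κ' : Type} [Fintype κ] [DecidableEq κ] [Fintype κ'] [DecidableEq κ']

theorem mul_adjE {R : Type*} [CommRing R] {ι : Type*} [Fintype ι] [DecidableEq ι]
    (B : Matrix κ κ (Matrix ι ι R)) : B * adjE B = dtE B • 1 := by
  have h : B * adjE B = (Matrix.compRingEquiv κ ι R).symm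
      (Matrix.compRingEquiv κ ι R B * (Matrix.compRingEquiv κ ι R B).adjugate) := by
    rw [map_mul, RingEquiv.symm_apply_apply]; rfl
  rw [h, Matrix.mul_adjugate, comp_symm_smul_one]; rfl

/-- the evaluation at `y` -/
def evy (y : BB) : Lam →+* QQ := ev (qm y) (qm (star y))

theorem evy_of {n : ℕ} {y : BB} {P Q : Matrix (Fin (n + 1)) (Fin (n + 1)) ℂ[X][X]}
    {Θ : Matrix (Fin (n + 1)) (Fin (n + 1)) ℂ[X][X] →+* QQ} (h1 : Θ P = qm y)
    (h2 : Θ Q = qm (star y)) (x : Lam) : Θ (ev P Q x) = evy y x := by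
  rw [map_ev, h1, h2]; rfl

theorem smul_one_map {n : ℕ} (Θ : Matrix (Fin (n + 1)) (Fin (n + 1)) ℂ[X][X] →+* QQ)
    (d : ℂ[X][X]) :
    ((d • (1 : Matrix κ κ (Matrix (Fin (n + 1)) (Fin (n + 1)) ℂ[X][X]))).map Θ) =
      Matrix.diagonal fun _ => Θ (d • 1) := by
  rw [← Matrix.diagonal_one, ← Matrix.diagonal_smul, Matrix.diagonal_map (map_zero _)]
  rfl

theorem center_comm {n : ℕ} (Θ : Matrix (Fin (n + 1)) (Fin (n + 1)) ℂ[X][X] →+* QQ)
    (d : ℂ[X][X]) (m : Matrix (Fin (n + 1)) (Fin (n + 1)) ℂ[X][X]) :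
    Commute (Θ (d • 1)) (Θ m) := by
  have h : Commute (d • (1 : Matrix (Fin (n + 1)) (Fin (n + 1)) ℂ[X][X])) m :=
    (Commute.one_left m).smul_left d
  exact h.map Θ

theorem center_mul {n : ℕ} (Θ : Matrix (Fin (n + 1)) (Fin (n + 1)) ℂ[X][X] →+* QQ)
    (d d' : ℂ[X][X]) : Θ (d • 1) * Θ (d' • 1) = Θ ((d * d') • 1) := by
  have h : (d • (1 : Matrix (Fin (n + 1)) (Fin (n + 1)) ℂ[X][X])) * (d' • 1) = (d * d') • 1 := by
    rw [smul_mul_smul_comm, mul_one]
  rw [← h]
  exact (map_mul Θ _ _).symm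

theorem Good.inv {A : Matrix κ κ Lam} {y : BB} (h : Good A y) :
    ∃ A' : Matrix κ κ QQ, A' * A.map (evy y) = 1 ∧ A.map (evy y) * A' = 1 := by
  obtain ⟨n, P, Q, Θ, h1, h2, hu⟩ := h
  obtain ⟨θ, hθ⟩ := hu
  have hA : (A.map (ev P Q)).map Θ = A.map (evy y) := by
    ext1 i j
    exact evy_of h1 h2 _
  have e1 : (adjE (A.map (ev P Q))).map Θ * A.map (evy y) = Matrix.diagonal fun _ => (θ : QQ) := by
    rw [← hA, ← Matrix.map_mul, adjE_mul, hθ]
    exact smul_one_map Θ _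
  have e2 : A.map (evy y) * (adjE (A.map (ev P Q))).map Θ = Matrix.diagonal fun _ => (θ : QQ) := by
    rw [← hA, ← Matrix.map_mul, mul_adjE, hθ]
    exact smul_one_map Θ _
  let D : Matrix κ κ QQ := Matrix.diagonal fun _ => ((θ⁻¹ : QQˣ) : QQ)
  have hD : D * (Matrix.diagonal fun _ => (θ : QQ)) = 1 := by
    rw [Matrix.diagonal_mul_diagonal]; simp
  have hD' : (Matrix.diagonal fun _ => (θ : QQ)) * D = 1 := by
    rw [Matrix.diagonal_mul_diagonal]; simp
  have l : (D * (adjE (A.map (ev P Q))).map Θ) * A.map (evy y) = 1 := by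
    rw [mul_assoc, e1, hD]
  have r : A.map (evy y) * ((adjE (A.map (ev P Q))).map Θ * D) = 1 := by
    rw [← mul_assoc, e2, hD']
  refine ⟨_, l, ?_⟩
  rw [left_inv_eq_right_inv l r]
  exact r

theorem Good.domain {A : Matrix κ κ Lam} {y : BB} (h : Good A y) {b c : κ → Lam}
    (hN : ¬ Gd (bord A b c)) {u : κ → QQ}
    (hu : (A.map (evy y)).mulVec u = fun k => evy y (b k)) :
    (fun k => evy y (c k)) ⬝ᵥ u = 0 := by
  obtain ⟨n, P, Q, Θ, h1, h2, hd⟩ := h
  by_cases hd0 : dt A P Q = 0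
  · rw [hd0, zero_smul, map_zero, isUnit_zero_iff] at hd
    rw [← one_mul ((fun k => evy y (c k)) ⬝ᵥ u), ← hd, zero_mul]
  have hs := congrArg Θ (domain_poly2 A b c hN P Q hd0)
  rw [map_zero, sc, RingHom.map_dotProduct] at hs
  have hA : (A.map (ev P Q)).map Θ = A.map (evy y) := by
    ext1 i j
    exact evy_of h1 h2 _
  have hX : (⇑Θ ∘ (adjE (A.map (ev P Q))).mulVec fun k => ev P Q (b k)) =
      fun k => Θ (dt A P Q • 1) * u k := by
    have e1 : (adjE (A.map (ev P Q))).map Θ * A.map (evy y) =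
        Matrix.diagonal fun _ => Θ (dt A P Q • 1) := by
      rw [← hA, ← Matrix.map_mul, adjE_mul]
      exact smul_one_map Θ _
    have e2 : (⇑Θ ∘ (adjE (A.map (ev P Q))).mulVec fun k => ev P Q (b k)) =
        ((adjE (A.map (ev P Q))).map Θ).mulVec (fun k => evy y (b k)) := by
      funext k
      rw [Function.comp_apply, RingHom.map_mulVec]
      congr 1
      funext k
      exact evy_of h1 h2 _
    rw [e2, ← hu, Matrix.mulVec_mulVec, e1]
    funext k
    rw [Matrix.mulVec_diagonal]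
  rw [hX] at hs
  have hc : ∀ x : Lam, Commute (Θ (dt A P Q • 1)) (evy y x) := by
    intro x
    rw [← evy_of h1 h2 x]
    exact center_comm Θ _ _
  have h3 : Θ (dt A P Q • 1) * ((fun k => evy y (c k)) ⬝ᵥ u) = 0 := by
    rw [← hs]
    simp only [dotProduct, Finset.mul_sum, Function.comp_apply]
    refine Finset.sum_congr rfl fun k _ => ?_
    rw [evy_of h1 h2, ← mul_assoc, ← mul_assoc, (hc (c k)).eq]
  exact (hd.mul_right_eq_zero).1 h3

theorem Gd_two {A : Matrix κ κ Lam} {A' : Matrix κ' κ' Lam} (h : Gd A) (h' : Gd A') :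
    Gd (Matrix.fromBlocks A 0 0 A') := by
  obtain ⟨ι₁, _, _, i₁, P₁, Q₁, h1⟩ := h
  obtain ⟨ι₂, _, _, i₂, P₂, Q₂, h2⟩ := h'
  -- the same size
  obtain ⟨P, Q, hPQ⟩ : ∃ P Q : Matrix (ι₁ × ι₂) (ι₁ × ι₂) ℂ, dt A P Q ≠ 0 :=
    ⟨_, _, by rw [dt_pow (o := ι₂)]; exact pow_ne_zero _ h1⟩
  obtain ⟨P', Q', hPQ'⟩ : ∃ P Q : Matrix (ι₁ × ι₂) (ι₁ × ι₂) ℂ, dt A' P Q ≠ 0 := by
    refine ⟨Matrix.reindex (Equiv.prodComm _ _) (Equiv.prodComm _ _)
      (Matrix.blockDiagonal fun _ : ι₁ => P₂), Matrix.reindex (Equiv.prodComm _ _) (Equiv.prodComm _ _)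
      (Matrix.blockDiagonal fun _ : ι₁ => Q₂), ?_⟩
    rw [dt_reindex, dt_pow]
    exact pow_ne_zero _ h2
  -- a line
  let L : Matrix (ι₁ × ι₂) (ι₁ × ι₂) ℂ → Matrix (ι₁ × ι₂) (ι₁ × ι₂) ℂ →
    Matrix (ι₁ × ι₂) (ι₁ × ι₂) ℂ[X] := fun M N => Matrix.of fun i j =>
      C (M i j) + X * C (N i j - M i j)
  have hL0 : ∀ M N, (L M N).map (evalRingHom (0 : ℂ)) = M := by
    intro M N
    ext i j
    simp [L]
  have hL1 : ∀ M N, (L M N).map (evalRingHom (1 : ℂ)) = N := by
    intro M N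
    ext i j
    simp [L]
  have e1 : dt A (L P P') (L Q Q') ≠ 0 := by
    intro h0
    have h3 := dt_map (evalRingHom (0 : ℂ)) A (L P P') (L Q Q')
    rw [hL0, hL0, h0, map_zero] at h3
    exact hPQ h3.symm
  have e2 : dt A' (L P P') (L Q Q') ≠ 0 := by
    intro h0
    have h3 := dt_map (evalRingHom (1 : ℂ)) A' (L P P') (L Q Q')
    rw [hL1, hL1, h0, map_zero] at h3
    exact hPQ' h3.symm
  have e3 := mul_ne_zero e1 e2
  rw [← dt_two] at e3
  obtain ⟨t, ht⟩ : ∃ t : ℂ, (dt (Matrix.fromBlocks A 0 0 A') (L P P') (L Q Q')).eval t ≠ 0 := by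
    by_contra hc
    push Not at hc
    exact e3 (Polynomial.funext (by simpa using hc))
  refine ⟨ι₁ × ι₂, inferInstance, inferInstance, (i₁, i₂), (L P P').map (evalRingHom t),
    (L Q Q').map (evalRingHom t), ?_⟩
  rw [← dt_map]
  exact ht

theorem Good_two {A : Matrix κ κ Lam} {A' : Matrix κ' κ' Lam} {y : BB}
    (h : Good (Matrix.fromBlocks A 0 0 A') y) : Good A y ∧ Good A' y := by
  obtain ⟨n, P, Q, Θ, h1, h2, hu⟩ := h
  have hc : Commute (Θ (dt A P Q • 1)) (Θ (dt A' P Q • 1)) := center_comm Θ _ _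
  have hm := center_mul Θ (dt A P Q) (dt A' P Q)
  rw [← dt_two] at hm
  have h3 : IsUnit (Θ (dt A P Q • 1)) ∧ IsUnit (Θ (dt A' P Q • 1)) := by
    rw [← hc.isUnit_mul_iff, hm]
    exact hu
  exact ⟨⟨n, P, Q, Θ, h1, h2, h3.1⟩, ⟨n, P, Q, Θ, h1, h2, h3.2⟩⟩

end good

/-- the index set -/
abbrev WW := {y : BB // LR y}

theorem Gd_one : Gd (1 : Matrix Unit Unit Lam) := by
  refine ⟨Unit, inferInstance, inferInstance, (), 0, 0, ?_⟩
  have : big (1 : Matrix Unit Unit Lam) (0 : Matrix Unit Unit ℂ) 0 = 1 := by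
    ext ⟨i, j⟩ ⟨k, l⟩
    simp [big_apply, Matrix.one_apply]
  rw [dt, this, Matrix.det_one]
  exact one_ne_zero

/-- the filter -/
def fil : Filter WW where
  sets := {s | ∃ (κ : Type) (_ : Fintype κ) (_ : DecidableEq κ) (A : Matrix κ κ Lam), Gd A ∧
    {w : WW | Good A w.1} ⊆ s}
  univ_sets := ⟨Unit, inferInstance, inferInstance, 1, Gd_one, Set.subset_univ _⟩
  sets_of_superset := by
    rintro s t ⟨κ, h1, h2, A, hA, hs⟩ hst
    exact ⟨κ, h1, h2, A, hA, hs.trans hst⟩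
  inter_sets := by
    rintro s t ⟨κ, h1, h2, A, hA, hs⟩ ⟨κ', h1', h2', A', hA', hs'⟩
    exact ⟨κ ⊕ κ', inferInstance, inferInstance, Matrix.fromBlocks A 0 0 A', Gd_two hA hA',
      fun w hw => ⟨hs (Good_two hw).1, hs' (Good_two hw).2⟩⟩

instance : fil.NeBot := by
  rw [Filter.neBot_iff]
  intro h
  have h1 : (∅ : Set WW) ∈ fil := by rw [h]; exact Filter.mem_bot
  obtain ⟨κ, _, _, A, hA, hs⟩ := h1
  obtain ⟨y, hy, hg⟩ := exists_good hA
  exact hs (show (⟨y, hy⟩ : WW) ∈ _ from hg)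

/-- the ultrafilter -/
def UU : Ultrafilter WW := Ultrafilter.of fil

section good2
variable {κ κ' : Type} [Fintype κ] [DecidableEq κ] [Fintype κ'] [DecidableEq κ']

theorem ev_good {A : Matrix κ κ Lam} (h : Gd A) : ∀ᶠ w in (UU : Filter WW), Good A w.1 := by
  have h1 : {w : WW | Good A w.1} ∈ fil := ⟨κ, inferInstance, inferInstance, A, h, subset_rfl⟩
  exact Ultrafilter.of_le fil h1

end good2

/-- rational families -/
def Rat (φ : WW → BB) : Prop :=
  ∃ (κ : Type) (_ : Fintype κ) (_ : DecidableEq κ) (A : Matrix κ κ Lam) (b c : κ → Lam), Gd A ∧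
    ∀ᶠ w in (UU : Filter WW), ∀ u : κ → QQ,
      (A.map (evy w.1)).mulVec u = (fun k => evy w.1 (b k)) →
        qm (φ w) = (fun k => evy w.1 (c k)) ⬝ᵥ u

theorem Rat.congr {φ ψ : WW → BB} (h : Rat φ) (h' : ∀ᶠ w in (UU : Filter WW), qm (φ w) = qm (ψ w)) :
    Rat ψ := by
  obtain ⟨κ, _, _, A, b, c, hA, h1⟩ := h
  refine ⟨κ, inferInstance, inferInstance, A, b, c, hA, ?_⟩
  filter_upwards [h1, h'] with w h2 h3 u hu
  rw [← h3, h2 u hu]

theorem Rat.of_lam (x : Lam) : ∀ φ : WW → BB, (∀ w, qm (φ w) = evy w.1 x) → Rat φ := by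
  intro φ h
  refine ⟨Unit, inferInstance, inferInstance, 1, fun _ => x, fun _ => 1, Gd_one, ?_⟩
  refine Filter.Eventually.of_forall fun w u hu => ?_
  have h1 := congrFun hu ()
  rw [h w, ← h1]
  simp [Matrix.mulVec, dotProduct]

theorem Rat.one : Rat (fun _ => 1) := Rat.of_lam 1 _ (fun w => by simp)

theorem Rat.zero : Rat (fun _ => 0) := Rat.of_lam 0 _ (fun w => by simp)

theorem Rat.y : Rat (fun w => w.1) := Rat.of_lam gp _ (fun w => by simp [evy])

theorem Rat.ystar : Rat (fun w => star w.1) := Rat.of_lam gq _ (fun w => by simp [evy])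

theorem Rat.of_FR {φ : WW → BB} (h : ∀ᶠ w in (UU : Filter WW), FR (φ w)) : Rat φ := by
  refine Rat.zero.congr ?_
  filter_upwards [h] with w hw
  rw [map_zero, qm_eq_zero.2 hw]

theorem Rat.neg {φ : WW → BB} (h : Rat φ) : Rat (fun w => - φ w) := by
  obtain ⟨κ, _, _, A, b, c, hA, h1⟩ := h
  refine ⟨κ, inferInstance, inferInstance, A, b, -c, hA, ?_⟩
  filter_upwards [h1] with w h2 u hu
  rw [map_neg, h2 u hu]
  simp [dotProduct]

theorem Rat.add {φ ψ : WW → BB} (h : Rat φ) (h' : Rat ψ) : Rat (fun w => φ w + ψ w) := by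
  obtain ⟨κ, _, _, A, b, c, hA, h1⟩ := h
  obtain ⟨κ', _, _, A', b', c', hA', h1'⟩ := h'
  refine ⟨κ ⊕ κ', inferInstance, inferInstance, Matrix.fromBlocks A 0 0 A', Sum.elim b b',
    Sum.elim c c', Gd_two hA hA', ?_⟩
  filter_upwards [h1, h1'] with w h2 h2' u hu
  have e1 : (A.map (evy w.1)).mulVec (fun k => u (Sum.inl k)) = fun k => evy w.1 (b k) := by
    funext k
    have := congrFun hu (Sum.inl k)
    simpa [Matrix.mulVec, dotProduct, Fintype.sum_sum_type] using this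
  have e2 : (A'.map (evy w.1)).mulVec (fun k => u (Sum.inr k)) = fun k => evy w.1 (b' k) := by
    funext k
    have := congrFun hu (Sum.inr k)
    simpa [Matrix.mulVec, dotProduct, Fintype.sum_sum_type] using this
  rw [map_add, h2 _ e1, h2' _ e2]
  simp [dotProduct, Fintype.sum_sum_type]

theorem Rat.mul {φ ψ : WW → BB} (h : Rat φ) (h' : Rat ψ) : Rat (fun w => φ w * ψ w) := by
  obtain ⟨κ, _, _, A, b, c, hA, h1⟩ := h
  obtain ⟨κ', _, _, A', b', c', hA', h1'⟩ := h'
  have hG : Gd (Matrix.fromBlocks A (Matrix.of fun i j => - (b i * c' j)) 0 A') := by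
    obtain ⟨ι, h3, h4, i, P, Q, h5⟩ := Gd_two hA hA'
    refine ⟨ι, h3, h4, i, P, Q, ?_⟩
    rwa [dt_upper, ← dt_two]
  refine ⟨κ ⊕ κ', inferInstance, inferInstance, _, Sum.elim 0 b',
    Sum.elim c 0, hG, ?_⟩
  filter_upwards [h1, h1', ev_good hA] with w h2 h2' hgood u hu
  obtain ⟨Z, hZ1, hZ2⟩ := hgood.inv
  have e2 : (A'.map (evy w.1)).mulVec (fun k => u (Sum.inr k)) = fun k => evy w.1 (b' k) := by
    funext k
    have := congrFun hu (Sum.inr k)
    simpa [Matrix.mulVec, dotProduct, Fintype.sum_sum_type] using this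
  have h3 := h2' _ e2
  let v : κ → QQ := Z.mulVec fun k => evy w.1 (b k)
  have hv : (A.map (evy w.1)).mulVec v = fun k => evy w.1 (b k) := by
    rw [Matrix.mulVec_mulVec, hZ2, Matrix.one_mulVec]
  have e1 : (A.map (evy w.1)).mulVec (fun k => u (Sum.inl k)) =
      fun k => evy w.1 (b k) * qm (ψ w) := by
    funext k
    have h4 := congrFun hu (Sum.inl k)
    simp only [Matrix.mulVec, dotProduct, Fintype.sum_sum_type, Matrix.map_apply,
      Matrix.fromBlocks_apply₁₁, Matrix.fromBlocks_apply₁₂, Matrix.of_apply, map_neg, map_mul,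
      neg_mul, Finset.sum_neg_distrib, Sum.elim_inl, Pi.zero_apply, map_zero] at h4
    rw [h3]
    simp only [Matrix.mulVec, dotProduct, Matrix.map_apply, Finset.mul_sum]
    rw [← sub_eq_add_neg, sub_eq_zero] at h4
    rw [h4]
    refine Finset.sum_congr rfl fun j _ => ?_
    rw [mul_assoc]
  have e3 : (fun k => u (Sum.inl k)) = fun k => v k * qm (ψ w) := by
    have h5 := congrArg Z.mulVec e1
    rw [Matrix.mulVec_mulVec, hZ1, Matrix.one_mulVec] at h5
    rw [h5]
    funext k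
    simp only [v, Matrix.mulVec, dotProduct, Finset.sum_mul, mul_assoc]
  rw [map_mul, h2 _ hv]
  simp only [dotProduct, Fintype.sum_sum_type, Sum.elim_inl, Sum.elim_inr, Pi.zero_apply, map_zero,
    zero_mul, Finset.sum_const_zero, add_zero, Finset.sum_mul]
  refine Finset.sum_congr rfl fun k _ => ?_
  rw [congrFun e3 k, mul_assoc]

section dich
variable {κ : Type} [Fintype κ] [DecidableEq κ]

theorem bord_inl (A : Matrix κ κ Lam) (b c : κ → Lam) (y : BB) (u : κ ⊕ Unit → QQ) (k : κ) :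
    ((bord A b c).map (evy y)).mulVec u (Sum.inl k) =
      (A.map (evy y)).mulVec (fun k => u (Sum.inl k)) k + evy y (b k) * u (Sum.inr ()) := by
  simp [bord, Matrix.mulVec, dotProduct, Fintype.sum_sum_type]

theorem bord_inr (A : Matrix κ κ Lam) (b c : κ → Lam) (y : BB) (u : κ ⊕ Unit → QQ) :
    ((bord A b c).map (evy y)).mulVec u (Sum.inr ()) =
      (fun k => evy y (c k)) ⬝ᵥ (fun k => u (Sum.inl k)) := by
  simp [bord, Matrix.mulVec, dotProduct, Fintype.sum_sum_type]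

/-- The Schur complement of an invertible bordered matrix is invertible. -/
theorem schur_unit {A : Matrix κ κ Lam} {b c : κ → Lam} {y : BB} (hA : Good A y)
    (hN : Good (bord A b c) y) {q : QQ}
    (hq : ∀ u : κ → QQ, (A.map (evy y)).mulVec u = (fun k => evy y (b k)) →
        q = (fun k => evy y (c k)) ⬝ᵥ u) :
    IsUnit q ∧ ∀ u : κ ⊕ Unit → QQ, ((bord A b c).map (evy y)).mulVec u =
      (fun k => evy y (Sum.elim (0 : κ → Lam) (fun _ => 1) k)) → q * (- u (Sum.inr ())) = 1 := by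
  obtain ⟨Z, hZ1, hZ2⟩ := hA.inv
  obtain ⟨N', hN1, hN2⟩ := hN.inv
  let v : κ → QQ := Z.mulVec fun k => evy y (b k)
  have hv : (A.map (evy y)).mulVec v = fun k => evy y (b k) := by
    rw [Matrix.mulVec_mulVec, hZ2, Matrix.one_mulVec]
  have hqv := hq v hv
  have h1 : ∀ u : κ ⊕ Unit → QQ, ((bord A b c).map (evy y)).mulVec u =
      (fun k => evy y (Sum.elim (0 : κ → Lam) (fun _ => 1) k)) → q * (- u (Sum.inr ())) = 1 := by
    intro u hu
    have e1 : (A.map (evy y)).mulVec (fun k => u (Sum.inl k)) =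
        fun k => evy y (b k) * (- u (Sum.inr ())) := by
      funext k
      have h2 := congrFun hu (Sum.inl k)
      rw [bord_inl] at h2
      simp only [Sum.elim_inl, Pi.zero_apply, map_zero] at h2
      rw [mul_neg]
      exact eq_neg_of_add_eq_zero_left h2
    have e2 := congrFun hu (Sum.inr ())
    rw [bord_inr] at e2
    simp only [Sum.elim_inr, map_one] at e2
    have e3 : (fun k => u (Sum.inl k)) = fun k => v k * (- u (Sum.inr ())) := by
      have h5 := congrArg Z.mulVec e1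
      rw [Matrix.mulVec_mulVec, hZ1, Matrix.one_mulVec] at h5
      rw [h5]
      funext k
      simp only [v, Matrix.mulVec, dotProduct, Finset.sum_mul, mul_assoc]
    rw [e3] at e2
    rw [hqv, ← e2]
    simp only [dotProduct, Finset.sum_mul, mul_assoc]
  refine ⟨?_, h1⟩
  -- right inverse
  let u₀ : κ ⊕ Unit → QQ := N'.mulVec (fun k => evy y (Sum.elim (0 : κ → Lam) (fun _ => 1) k))
  have hu₀ : ((bord A b c).map (evy y)).mulVec u₀ =
      (fun k => evy y (Sum.elim (0 : κ → Lam) (fun _ => 1) k)) := by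
    rw [Matrix.mulVec_mulVec, hN2, Matrix.one_mulVec]
  have hr := h1 u₀ hu₀
  -- left cancellation
  have hl : ∀ x : QQ, q * x = 0 → x = 0 := by
    intro x hx
    let z : κ ⊕ Unit → QQ := Sum.elim (fun k => v k * x) (fun _ => - x)
    have hz : ((bord A b c).map (evy y)).mulVec z = 0 := by
      funext k
      rcases k with k | k
      · rw [bord_inl]
        have h3 : (A.map (evy y)).mulVec (fun k => z (Sum.inl k)) k = evy y (b k) * x := by
          rw [← congrFun hv k]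
          simp only [z, Sum.elim_inl, Matrix.mulVec, dotProduct, Finset.sum_mul, mul_assoc]
        rw [h3]
        simp [z]
      · rw [bord_inr]
        have h3 : (fun k => evy y (c k)) ⬝ᵥ (fun k => z (Sum.inl k)) = q * x := by
          rw [hqv]
          simp only [z, Sum.elim_inl, dotProduct, Finset.sum_mul, mul_assoc]
        rw [h3, hx]
        rfl
    have hz0 : z = 0 := by
      have h4 := congrArg N'.mulVec hz
      rw [Matrix.mulVec_mulVec, hN1, Matrix.one_mulVec, Matrix.mulVec_zero] at h4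
      exact h4
    have h5 := congrFun hz0 (Sum.inr ())
    simpa [z] using h5
  have hl1 : (- u₀ (Sum.inr ())) * q = 1 := by
    have h6 := hl ((- u₀ (Sum.inr ())) * q - 1) (by
      rw [mul_sub, ← mul_assoc, hr, one_mul, mul_one, sub_self])
    exact sub_eq_zero.1 h6
  exact ⟨⟨q, _, hr, hl1⟩, rfl⟩

end dich

/-- The dichotomy. -/
theorem Rat.dich {φ : WW → BB} (h : Rat φ) :
    (∀ᶠ w in (UU : Filter WW), qm (φ w) = 0) ∨ (∀ᶠ w in (UU : Filter WW), IsUnit (qm (φ w))) := by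
  obtain ⟨κ, _, _, A, b, c, hA, h1⟩ := h
  by_cases hN : Gd (bord A b c)
  · right
    filter_upwards [h1, ev_good hA, ev_good hN] with w h2 h3 h4
    exact (schur_unit h3 h4 h2).1
  · left
    filter_upwards [h1, ev_good hA] with w h2 h3
    obtain ⟨Z, hZ1, hZ2⟩ := h3.inv
    have hv : (A.map (evy w.1)).mulVec (Z.mulVec fun k => evy w.1 (b k)) =
        fun k => evy w.1 (b k) := by
      rw [Matrix.mulVec_mulVec, hZ2, Matrix.one_mulVec]
    rw [h2 _ hv]
    exact h3.domain hN hv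

theorem Rat.inv {φ ψ : WW → BB} (h : Rat φ)
    (hψ : ∀ᶠ w in (UU : Filter WW), φ w * ψ w * φ w = φ w ∧ ψ w * φ w * ψ w = ψ w) : Rat ψ := by
  obtain ⟨κ, _, _, A, b, c, hA, h1⟩ := h
  by_cases hN : Gd (bord A b c)
  · refine ⟨κ ⊕ Unit, inferInstance, inferInstance, bord A b c,
      Sum.elim (0 : κ → Lam) (fun _ => 1), Sum.elim (0 : κ → Lam) (fun _ => -1), hN, ?_⟩
    filter_upwards [h1, ev_good hA, ev_good hN, hψ] with w h2 h3 h4 h5 u hu
    obtain ⟨h6, h7⟩ := schur_unit h3 h4 h2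
    have h8 := h7 u hu
    obtain ⟨q, hq⟩ := h6
    have h9 : qm (ψ w) * qm (φ w) = 1 := by
      have h10 := congrArg qm h5.1
      rw [map_mul, map_mul, ← hq] at h10
      have h11 : qm (ψ w) * q = 1 := by
        have := congrArg (fun x => (↑q⁻¹ : QQ) * x) h10
        simpa [mul_assoc] using this
      rw [← hq, h11]
    have h12 : qm (ψ w) = - u (Sum.inr ()) := by
      calc qm (ψ w) = qm (ψ w) * (qm (φ w) * (- u (Sum.inr ()))) := by rw [h8, mul_one]
        _ = - u (Sum.inr ()) := by rw [← mul_assoc, h9, one_mul]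
    rw [h12]
    simp [dotProduct, Fintype.sum_sum_type]
  · apply Rat.of_FR
    filter_upwards [h1, ev_good hA, hψ] with w h2 h3 h5
    obtain ⟨Z, hZ1, hZ2⟩ := h3.inv
    have hv : (A.map (evy w.1)).mulVec (Z.mulVec fun k => evy w.1 (b k)) =
        fun k => evy w.1 (b k) := by
      rw [Matrix.mulVec_mulVec, hZ2, Matrix.one_mulVec]
    have h6 : qm (φ w) = 0 := by
      rw [h2 _ hv]
      exact h3.domain hN hv
    rw [← qm_eq_zero, ← h5.2, map_mul, map_mul, h6, mul_zero, zero_mul]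

theorem Rat.exists_inv {φ : WW → BB} (h : Rat φ) : ∃ ψ : WW → BB,
    ∀ᶠ w in (UU : Filter WW), φ w * ψ w * φ w = φ w ∧ ψ w * φ w * ψ w = ψ w := by
  classical
  have h1 : ∀ᶠ w in (UU : Filter WW), ∃ b : BB, φ w * b * φ w = φ w ∧ b * φ w * b = b := by
    rcases h.dich with h | h
    · filter_upwards [h] with w hw
      exact exists_refl_inv (Or.inl hw)
    · filter_upwards [h] with w hw
      exact exists_refl_inv (Or.inr hw)
  let ψ : WW → BB := fun w => if hw : ∃ b : BB, φ w * b * φ w = φ w ∧ b * φ w * b = b then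
    hw.choose else 0
  refine ⟨ψ, ?_⟩
  filter_upwards [h1] with w hw
  simp only [ψ]
  rw [dif_pos hw]
  exact hw.choose_spec

end

end Pool.Agent.W408.SR
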