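import Pool.Agent.W408.SR.Rat

set_option autoImplicit false

/-!
# The ring of germs of rational families
-/

namespace Pool.Agent.W408.SR

open Polynomial

noncomputable section

/-- the germs of families of operators -/
abbrev GE := (UU : Filter WW).Germ BB

instance : Star GE := ⟨Filter.Germ.map star⟩

theorem GE_star (φ : WW → BB) : star (φ : GE) = ((fun w => star (φ w) : WW → BB) : GE) := rfl

instance : StarRing GE where
  star_involutive g := by
    induction g using Filter.Germ.inductionOn with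
    | _ φ => 
      rw [GE_star, GE_star]
      congr 1
      funext w
      exact star_star _
  star_mul g h := by
    induction g using Filter.Germ.inductionOn with
    | _ φ => 
    induction h using Filter.Germ.inductionOn with
    | _ ψ => 
      rw [← Filter.Germ.coe_mul, GE_star, GE_star, GE_star, ← Filter.Germ.coe_mul]
      congr 1
      funext w
      exact star_mul _ _
  star_add g h := by
    induction g using Filter.Germ.inductionOn with
    | _ φ => 
    induction h using Filter.Germ.inductionOn with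
    | _ ψ => 
      rw [← Filter.Germ.coe_add, GE_star, GE_star, GE_star, ← Filter.Germ.coe_add]
      congr 1
      funext w
      exact star_add _ _

/-- rational together with the adjoint -/
def Rats (φ : WW → BB) : Prop := Rat φ ∧ Rat (fun w => star (φ w))

theorem Rats.congr {φ ψ : WW → BB} (h : Rats φ) (h' : (φ : GE) = ψ) : Rats ψ := by
  rw [Filter.Germ.coe_eq] at h'
  refine ⟨h.1.congr ?_, h.2.congr ?_⟩
  · filter_upwards [h'] with w hw
    rw [hw]
  · filter_upwards [h'] with w hw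
    rw [hw]

theorem Rats.of_FR {φ : WW → BB} (h : ∀ᶠ w in (UU : Filter WW), FR (φ w)) : Rats φ := by
  refine ⟨Rat.of_FR h, Rat.of_FR ?_⟩
  filter_upwards [h] with w hw
  exact hw.adj

theorem Rats.add {φ ψ : WW → BB} (h : Rats φ) (h' : Rats ψ) : Rats (φ + ψ) := by
  refine ⟨h.1.add h'.1, ?_⟩
  have := h.2.add h'.2
  simpa only [Pi.add_apply, star_add] using this

theorem Rats.mul {φ ψ : WW → BB} (h : Rats φ) (h' : Rats ψ) : Rats (φ * ψ) := by
  refine ⟨h.1.mul h'.1, ?_⟩
  have := h'.2.mul h.2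
  simpa only [Pi.mul_apply, star_mul] using this

theorem Rats.neg {φ : WW → BB} (h : Rats φ) : Rats (-φ) := by
  refine ⟨h.1.neg, ?_⟩
  have := h.2.neg
  simpa only [Pi.neg_apply, star_neg] using this

theorem Rats.star {φ : WW → BB} (h : Rats φ) : Rats (fun w => star (φ w)) := by
  refine ⟨h.2, ?_⟩
  simpa only [star_star] using h.1

theorem Rats.zero : Rats 0 := Rats.of_FR (Filter.Eventually.of_forall fun _ => FR.zero)

theorem Rats.one : Rats 1 := by
  refine ⟨Rat.one, ?_⟩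
  have : (fun w : WW => Star.star ((1 : WW → BB) w)) = fun _ => 1 := by
    funext w
    simp
  rw [this]
  exact Rat.one

/-- the ring -/
def RR : Subring GE where
  carrier := {g | ∃ φ : WW → BB, (φ : GE) = g ∧ Rats φ}
  mul_mem' := by
    rintro _ _ ⟨φ, rfl, hφ⟩ ⟨ψ, rfl, hψ⟩
    exact ⟨φ * ψ, rfl, hφ.mul hψ⟩
  one_mem' := ⟨1, rfl, Rats.one⟩
  add_mem' := by
    rintro _ _ ⟨φ, rfl, hφ⟩ ⟨ψ, rfl, hψ⟩
    exact ⟨φ + ψ, rfl, hφ.add hψ⟩
  zero_mem' := ⟨0, rfl, Rats.zero⟩
  neg_mem' := by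
    rintro _ ⟨φ, rfl, hφ⟩
    exact ⟨-φ, rfl, hφ.neg⟩

theorem RR_star {g : GE} (h : g ∈ RR) : star g ∈ RR := by
  obtain ⟨φ, rfl, hφ⟩ := h
  exact ⟨_, rfl, hφ.star⟩

instance : StarRing RR where
  star x := ⟨star x.1, RR_star x.2⟩
  star_involutive x := Subtype.ext (star_star x.1)
  star_mul x y := Subtype.ext (star_mul x.1 y.1)
  star_add x y := Subtype.ext (star_add x.1 y.1)

/-- elements of the ring -/
def mk (φ : WW → BB) (h : Rats φ) : RR := ⟨(φ : GE), φ, rfl, h⟩

theorem exists_mk (x : RR) : ∃ φ h, x = mk φ h := by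
  obtain ⟨_, φ, rfl, h⟩ := x
  exact ⟨φ, h, rfl⟩

theorem mk_eq {φ ψ : WW → BB} (h : Rats φ) (h' : Rats ψ) :
    mk φ h = mk ψ h' ↔ ∀ᶠ w in (UU : Filter WW), φ w = ψ w := by
  rw [mk, mk, Subtype.mk.injEq, Filter.Germ.coe_eq]
  rfl

theorem mk_mul {φ ψ : WW → BB} (h : Rats φ) (h' : Rats ψ) :
    mk φ h * mk ψ h' = mk (φ * ψ) (h.mul h') := rfl

theorem mk_add {φ ψ : WW → BB} (h : Rats φ) (h' : Rats ψ) :
    mk φ h + mk ψ h' = mk (φ + ψ) (h.add h') := rfl

theorem mk_star {φ : WW → BB} (h : Rats φ) : star (mk φ h) = mk (fun w => star (φ w)) h.star := rfl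

theorem mk_one : (1 : RR) = mk 1 Rats.one := rfl

theorem mk_zero : (0 : RR) = mk 0 Rats.zero := rfl

theorem RR_regular (a : RR) : ∃ x : RR, a * x * a = a := by
  obtain ⟨φ, h, rfl⟩ := exists_mk a
  obtain ⟨ψ, hψ⟩ := h.1.exists_inv
  have h1 : Rats ψ := by
    refine ⟨h.1.inv hψ, h.2.inv ?_⟩
    filter_upwards [hψ] with w hw
    rw [← star_mul, ← star_mul, ← star_mul, ← star_mul]
    constructor
    · rw [← mul_assoc, hw.1]
    · rw [← mul_assoc, hw.2]
  refine ⟨mk ψ h1, ?_⟩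
  rw [mk_mul, mk_mul, mk_eq]
  filter_upwards [hψ] with w hw
  exact hw.1

theorem RR_proper (x : RR) (h : star x * x = 0) : x = 0 := by
  obtain ⟨φ, hφ, rfl⟩ := exists_mk x
  rw [mk_star, mk_mul, mk_zero, mk_eq] at h
  rw [mk_zero, mk_eq]
  filter_upwards [h] with w hw
  exact star_mul_self_eq_zero' hw

/-- the element which is not unit-regular -/
def yR : RR := mk (fun w => w.1) ⟨Rat.y, Rat.ystar⟩

theorem yR_left : ∀ a : RR, yR * a = yR → a = 1 := by
  intro a h
  obtain ⟨φ, hφ, rfl⟩ := exists_mk a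
  rw [yR, mk_mul, mk_eq] at h
  rw [mk_one, mk_eq]
  filter_upwards [h] with w hw
  obtain ⟨z, hz⟩ := w.2.1
  have h1 : w.1 * φ w = w.1 := hw
  calc φ w = (z * w.1) * φ w := by rw [hz, one_mul]
    _ = 1 := by rw [mul_assoc, h1, hz]

theorem yR_right (a : RR) : yR * a ≠ 1 := by
  intro h
  obtain ⟨φ, hφ, rfl⟩ := exists_mk a
  rw [yR, mk_mul, mk_one, mk_eq] at h
  obtain ⟨w, hw⟩ := h.exists
  exact w.2.2 ⟨φ w, hw⟩

theorem yR_not (u : RRˣ) : yR * (u : RR) * yR ≠ yR := by
  intro h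
  rw [mul_assoc] at h
  have h1 := yR_left _ h
  apply yR_right (u : RR)
  have h2 : yR = ((u⁻¹ : RRˣ) : RR) := by
    calc yR = ((u⁻¹ : RRˣ) : RR) * ((u : RR) * yR) := by rw [← mul_assoc, Units.inv_mul, one_mul]
      _ = _ := by rw [h1, mul_one]
  rw [h2, Units.inv_mul]

end

end Pool.Agent.W408.SR
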